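import Mathlib

/-!
Basic tools: uniform dependence of continuous functions on compact spaces on finitely many
coordinates, and a Hahn-Banach decomposition for the maximum of two seminorms.
-/

open Set Filter Topology Cardinal

namespace Pool.Agent.SemiEb

section UC

variable {K I : Type*} [TopologicalSpace K] [CompactSpace K]

/-- On a compact space whose points are separated by the continuous functions `g i`, every
continuous function is uniformly continuous with respect to finitely many of the `g i`. -/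
lemma uc (g : I → K → ℝ) (hg : ∀ i, Continuous (g i))
    (hsep : ∀ y y', (∀ i, g i y = g i y') → y = y') (φ : K → ℝ) (hφ : Continuous φ)
    {ε : ℝ} (hε : 0 < ε) :
    ∃ F : Finset I, ∃ η > 0, ∀ y y', (∀ i ∈ F, |g i y - g i y'| < η) → |φ y - φ y'| < ε := by
  classical
  by_cases hI : Nonempty I
  swap
  · refine ⟨∅, 1, one_pos, fun y y' _ => ?_⟩
    have : y = y' := hsep y y' (fun i => (hI ⟨i⟩).elim)
    rw [this]; simpa using hε
  set Z : Set (K × K) := {p | ε ≤ |φ p.1 - φ p.2|} with hZ
  have hZc : IsCompact Z := by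
    apply IsClosed.isCompact
    exact isClosed_le continuous_const
      (((hφ.comp continuous_fst).sub (hφ.comp continuous_snd)).abs)
  let U : Finset I × ℕ → Set (K × K) := fun q =>
    {p | ∃ i ∈ q.1, (1 : ℝ) / (q.2 + 1) < |g i p.1 - g i p.2|}
  have hUo : ∀ q, IsOpen (U q) := by
    intro q
    have : U q = ⋃ i ∈ q.1, {p : K × K | (1 : ℝ) / (q.2 + 1) < |g i p.1 - g i p.2|} := by
      ext p; simp [U]
    rw [this]
    refine isOpen_biUnion fun i _ => ?_
    exact isOpen_lt continuous_const
      ((((hg i).comp continuous_fst).sub ((hg i).comp continuous_snd)).abs)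
  have hcov : Z ⊆ ⋃ q, U q := by
    intro p hp
    have hne : p.1 ≠ p.2 := by
      intro h
      have : ε ≤ |φ p.1 - φ p.2| := hp
      rw [h] at this; simp at this; linarith
    obtain ⟨i, hi⟩ : ∃ i, g i p.1 ≠ g i p.2 := by
      by_contra hcon
      push Not at hcon
      exact hne (hsep _ _ hcon)
    obtain ⟨n, hn⟩ := exists_nat_one_div_lt (abs_pos.2 (sub_ne_zero.2 hi))
    exact mem_iUnion.2 ⟨({i}, n), i, by simp, hn⟩
  have hdir : Directed (· ⊆ ·) U := by
    intro q r
    refine ⟨(q.1 ∪ r.1, max q.2 r.2), ?_, ?_⟩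
    · rintro p ⟨i, hi, h⟩
      refine ⟨i, Finset.mem_union_left _ hi, lt_of_le_of_lt ?_ h⟩
      apply one_div_le_one_div_of_le (by positivity)
      have : (q.2 : ℝ) ≤ ((max q.2 r.2 : ℕ) : ℝ) := by exact_mod_cast le_max_left _ _
      linarith
    · rintro p ⟨i, hi, h⟩
      refine ⟨i, Finset.mem_union_right _ hi, lt_of_le_of_lt ?_ h⟩
      apply one_div_le_one_div_of_le (by positivity)
      have : (r.2 : ℝ) ≤ ((max q.2 r.2 : ℕ) : ℝ) := by exact_mod_cast le_max_right _ _
      linarith
  obtain ⟨q, hq⟩ := hZc.elim_directed_cover U hUo hcov hdir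
  refine ⟨q.1, 1 / (q.2 + 1), by positivity, fun y y' h => ?_⟩
  by_contra hcon
  have hmem : (y, y') ∈ Z := not_lt.1 hcon
  obtain ⟨i, hi, hlt⟩ := hq hmem
  exact absurd (h i hi) (not_lt.2 hlt.le)

/-- On a compact space whose points are separated by the continuous functions `g i`, every
continuous function depends on countably many of the `g i`. -/
lemma dep (g : I → K → ℝ) (hg : ∀ i, Continuous (g i))
    (hsep : ∀ y y', (∀ i, g i y = g i y') → y = y') (φ : K → ℝ) (hφ : Continuous φ) :
    ∃ E : Set I, E.Countable ∧ ∀ y y', (∀ i ∈ E, g i y = g i y') → φ y = φ y' := by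
  have h : ∀ n : ℕ, ∃ F : Finset I, ∃ η > 0, ∀ y y', (∀ i ∈ F, |g i y - g i y'| < η) →
      |φ y - φ y'| < 1 / ((n : ℝ) + 1) := fun n => uc g hg hsep φ hφ (by positivity)
  choose F η hη hF using h
  refine ⟨⋃ n, (F n : Set I), countable_iUnion fun n => (F n).countable_toSet, ?_⟩
  intro y y' hy
  by_contra hne
  obtain ⟨n, hn⟩ := exists_nat_one_div_lt (abs_pos.2 (sub_ne_zero.2 hne))
  have := hF n y y' (fun i hi => by
    rw [hy i (mem_iUnion.2 ⟨n, hi⟩)]; simpa using hη n)
  linarith

end UC

/-- Decomposition of a functional dominated by the maximum of a seminorm and the absolute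
value of a functional. -/
lemma decomp {X : Type*} [AddCommGroup X] [Module ℝ X] (M : Seminorm ℝ X) (p y : X →ₗ[ℝ] ℝ)
    (hy : ∀ x, |y x| ≤ max (M x) |p x|) :
    ∃ s : ℝ, |s| ≤ 1 ∧ ∀ x, |y x - s * p x| ≤ (1 - |s|) * M x := by
  classical
  let gr : Submodule ℝ (X × ℝ) := LinearMap.graph p
  let f : (X × ℝ) →ₗ.[ℝ] ℝ := ⟨gr, (y ∘ₗ LinearMap.fst ℝ X ℝ) ∘ₗ gr.subtype⟩
  let q : X × ℝ → ℝ := fun z => max (M z.1) |z.2|
  obtain ⟨g, hg1, hg2⟩ := exists_extension_of_le_sublinear f q
    (by
      intro c hc z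
      simp only [q, Prod.smul_fst, Prod.smul_snd, map_smul_eq_mul, smul_eq_mul, abs_mul,
        Real.norm_eq_abs, abs_of_pos hc]
      rw [mul_max_of_nonneg _ _ hc.le])
    (by
      intro z w
      simp only [q, Prod.fst_add, Prod.snd_add]
      apply max_le
      · exact (map_add_le_add M _ _).trans (add_le_add (le_max_left _ _) (le_max_left _ _))
      · exact (abs_add_le _ _).trans (add_le_add (le_max_right _ _) (le_max_right _ _)))
    (by
      rintro ⟨⟨x, t⟩, hx⟩
      have ht : t = p x := by
        have h0 : (x, t) ∈ LinearMap.graph p := hx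
        simpa using (LinearMap.mem_graph_iff p (x, t)).1 h0
      simp only [f, q, LinearPMap.mk_apply, LinearMap.comp_apply, Submodule.subtype_apply,
        LinearMap.fst_apply]
      rw [ht]
      exact (le_abs_self _).trans (hy x))
  have key : ∀ x : X, y x = g (x, p x) := by
    intro x
    have := hg1 ⟨(x, p x), by simp [gr, LinearMap.mem_graph_iff, f]⟩
    rw [this]
    simp [f]
  set s : ℝ := g (0, 1) with hs
  have hlin : ∀ (x : X) (t : ℝ), g (x, t) = g (x, 0) + t * s := by
    intro x t
    have : ((x, t) : X × ℝ) = (x, 0) + t • (0, 1) := by simp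
    rw [this, map_add, map_smul, smul_eq_mul]
  have hb : ∀ (x : X) (t : ℝ), |g (x, t)| ≤ max (M x) |t| := by
    intro x t
    rw [abs_le]
    constructor
    · have := hg2 (-(x, t))
      rw [map_neg] at this
      simp only [q, Prod.fst_neg, Prod.snd_neg, map_neg_eq_map, abs_neg] at this
      linarith
    · exact hg2 (x, t)
  have hs1 : |s| ≤ 1 := by
    have := hb 0 1
    simpa using this
  refine ⟨s, hs1, fun x => ?_⟩
  have h1 : y x - s * p x = g (x, 0) := by
    rw [key x, hlin x (p x)]; ring
  rw [h1]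
  have hM : 0 ≤ M x := apply_nonneg M x
  have hp : |g (x, 0) + M x * s| ≤ M x := by
    rw [← hlin]; simpa [abs_of_nonneg hM] using hb x (M x)
  have hm : |g (x, 0) - M x * s| ≤ M x := by
    have h2 := hb x (-(M x))
    rw [hlin] at h2
    simpa [abs_of_nonneg hM, sub_eq_add_neg] using h2
  rw [abs_le] at hp hm ⊢
  rcases abs_cases s with ⟨h, _⟩ | ⟨h, _⟩ <;> rw [h] <;> constructor <;> nlinarith

end Pool.Agent.SemiEb
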