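import Mathlib
import Pool.Agent.Lib.SemiEb.Basic

/-!
The renorming used in the main argument.
-/

open Set Filter Topology Cardinal

universe u

namespace Pool.Agent.SemiEb

variable {X : Type u} [NormedAddCommGroup X] [NormedSpace ℝ X]

/-- The dual ball of the seminorm `N`, as a subset of the weak* dual. -/
def dualBall (N : Seminorm ℝ X) : Set (WeakDual ℝ X) := {f | ∀ x, |f x| ≤ N x}

lemma mem_dualBall {N : Seminorm ℝ X} {f : WeakDual ℝ X} : f ∈ dualBall N ↔ ∀ x, |f x| ≤ N x :=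
  Iff.rfl

lemma isCompact_dualBall {N : Seminorm ℝ X} {C : ℝ} (hC : 0 ≤ C) (hN : ∀ x, N x ≤ C * ‖x‖) :
    IsCompact (dualBall N) := by
  have h1 := WeakDual.isCompact_closedBall (𝕜 := ℝ) (E := X) 0 C
  refine h1.of_isClosed_subset ?_ ?_
  · have : dualBall N = ⋂ x : X, {f : WeakDual ℝ X | |f x| ≤ N x} := by
      ext f; simp [dualBall]
    rw [this]
    exact isClosed_iInter fun x => isClosed_le (WeakDual.eval_continuous x).abs continuous_const
  · intro f hf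
    simp only [mem_preimage, mem_closedBall_zero_iff]
    refine ContinuousLinearMap.opNorm_le_bound _ hC fun x => ?_
    exact (hf x).trans (hN x)

/-- The supremum of `δ ‖x‖` and the `|p j x|`. -/
noncomputable def supSN {J : Type*} (p : J → X →ₗ[ℝ] ℝ) (δ : NNReal) : Seminorm ℝ X :=
  ⨆ j : Option J, Option.elim j (δ • normSeminorm ℝ X) (fun j => (normSeminorm ℝ ℝ).comp (p j))

section supSN

variable {J : Type*} {p : J → X →ₗ[ℝ] ℝ} {δ : NNReal} {R : ℝ}

lemma bddAbove_supSN (hp : ∀ j x, |p j x| ≤ R * ‖x‖) (hδ : (δ : ℝ) ≤ R) :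
    BddAbove (range fun j : Option J => Option.elim j (δ • normSeminorm ℝ X)
      (fun j => (normSeminorm ℝ ℝ).comp (p j))) := by
  rw [Seminorm.bddAbove_range_iff]
  intro x
  refine ⟨R * ‖x‖, ?_⟩
  rintro _ ⟨j, rfl⟩
  cases j with
  | none =>
    simp only [Option.elim_none, Seminorm.smul_apply, coe_normSeminorm]
    exact mul_le_mul_of_nonneg_right hδ (norm_nonneg x)
  | some j =>
    simpa using hp j x

lemma supSN_apply (hp : ∀ j x, |p j x| ≤ R * ‖x‖) (hδ : (δ : ℝ) ≤ R) (x : X) :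
    supSN p δ x = ⨆ j : Option J, Option.elim j ((δ : ℝ) * ‖x‖) (fun j => |p j x|) := by
  rw [supSN, Seminorm.iSup_apply (bddAbove_supSN hp hδ)]
  congr 1
  ext j
  cases j with
  | none => rfl
  | some j => simp

lemma bdd_aux (hp : ∀ j x, |p j x| ≤ R * ‖x‖) (hδ : (δ : ℝ) ≤ R) (x : X) :
    BddAbove (range fun j : Option J => Option.elim j ((δ : ℝ) * ‖x‖) (fun j => |p j x|)) := by
  refine ⟨R * ‖x‖, ?_⟩
  rintro _ ⟨j, rfl⟩
  cases j with
  | none => exact mul_le_mul_of_nonneg_right hδ (norm_nonneg x)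
  | some j => exact hp j x

lemma le_supSN (hp : ∀ j x, |p j x| ≤ R * ‖x‖) (hδ : (δ : ℝ) ≤ R) (j : J) (x : X) :
    |p j x| ≤ supSN p δ x := by
  rw [supSN_apply hp hδ]
  exact le_ciSup (bdd_aux hp hδ x) (some j)

lemma delta_le_supSN (hp : ∀ j x, |p j x| ≤ R * ‖x‖) (hδ : (δ : ℝ) ≤ R) (x : X) :
    δ * ‖x‖ ≤ supSN p δ x := by
  rw [supSN_apply hp hδ]
  exact le_ciSup (bdd_aux hp hδ x) none

lemma supSN_le (hp : ∀ j x, |p j x| ≤ R * ‖x‖) (hδ : (δ : ℝ) ≤ R) {x : X} {b : ℝ}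
    (h0 : δ * ‖x‖ ≤ b) (h1 : ∀ j, |p j x| ≤ b) : supSN p δ x ≤ b := by
  rw [supSN_apply hp hδ]
  refine ciSup_le fun j => ?_
  cases j with
  | none => exact h0
  | some j => exact h1 j

lemma supSN_le_mul (hp : ∀ j x, |p j x| ≤ R * ‖x‖) (hδ : (δ : ℝ) ≤ R) (x : X) :
    supSN p δ x ≤ R * ‖x‖ :=
  supSN_le hp hδ (mul_le_mul_of_nonneg_right hδ (norm_nonneg x)) (fun j => hp j x)

/-- Strong exposedness of `p i0` in the new dual ball. -/
lemma denting (hp : ∀ j x, |p j x| ≤ 3 * ‖x‖) (hδ : (δ : ℝ) ≤ 3) (i0 : J) (e : X)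
    (h1 : 7 / 8 ≤ p i0 e) (h2 : ∀ j, j ≠ i0 → |p j e| ≤ 1 / 2) (h3 : δ * ‖e‖ ≤ 1 / 2)
    {t : ℝ} (ht : 0 < t) :
    ∃ η > 0, ∀ y ∈ dualBall (supSN p δ), p i0 e - η < y e →
      ∀ x, |y x - p i0 x| ≤ t * ‖x‖ := by
  refine ⟨t / 16, by positivity, fun y hy hye x => ?_⟩
  let J' := {j : J // j ≠ i0}
  let p' : J' → X →ₗ[ℝ] ℝ := fun j => p j
  have hp' : ∀ (j : J') x, |p' j x| ≤ 3 * ‖x‖ := fun j x => hp j x
  let M := supSN p' δ
  have hmax : ∀ x, |(y : X →ₗ[ℝ] ℝ) x| ≤ max (M x) |p i0 x| := by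
    intro x
    refine (hy x).trans ?_
    refine supSN_le hp hδ (le_max_of_le_left (delta_le_supSN hp' hδ x)) fun j => ?_
    by_cases hj : j = i0
    · rw [hj]; exact le_max_right _ _
    · exact le_max_of_le_left (le_supSN hp' hδ (⟨j, hj⟩ : J') x)
  obtain ⟨s, hs1, hs⟩ := decomp M (p i0) (y : X →ₗ[ℝ] ℝ) hmax
  have hMe : M e ≤ 1 / 2 := supSN_le hp' hδ h3 fun j => h2 j j.2
  have hMx : M x ≤ 3 * ‖x‖ := supSN_le_mul hp' hδ x
  have hM0 : 0 ≤ M e := apply_nonneg M e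
  have hMx0 : 0 ≤ M x := apply_nonneg M x
  have habs := abs_le.1 hs1
  have hsle : s ≤ |s| := le_abs_self s
  have e1 : y e - s * p i0 e ≤ (1 - |s|) * M e := (le_abs_self _).trans (hs e)
  have e2 : (1 - |s|) * M e ≤ (1 - s) * (1 / 2) := by
    apply mul_le_mul (by linarith) hMe hM0 (by linarith)
  have e3 : (1 - s) * (3 / 8) < t / 16 := by
    have : (1 - s) * (3 / 8) ≤ (1 - s) * (p i0 e - 1 / 2) :=
      mul_le_mul_of_nonneg_left (by linarith) (by linarith)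
    nlinarith
  have e4 : |y x - p i0 x| ≤ (1 - |s|) * M x + (1 - s) * |p i0 x| := by
    have : y x - p i0 x = (y x - s * p i0 x) + (-((1 - s) * p i0 x)) := by ring
    rw [this]
    refine (abs_add_le _ _).trans (add_le_add (hs x) ?_)
    rw [abs_neg, abs_mul, abs_of_nonneg (by linarith : (0 : ℝ) ≤ 1 - s)]
  have e5 : (1 - |s|) * M x ≤ (1 - s) * (3 * ‖x‖) :=
    mul_le_mul (by linarith) hMx hMx0 (by linarith)
  have e6 : (1 - s) * |p i0 x| ≤ (1 - s) * (3 * ‖x‖) :=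
    mul_le_mul_of_nonneg_left (hp i0 x) (by linarith)
  have hx := norm_nonneg x
  nlinarith

end supSN

/-- A space is semi-Eberlein: there is an embedding into a power of `[-1,1]` such that the
points lying in `c₀` are dense. -/
def IsSemiEberlein (K : Type u) [TopologicalSpace K] : Prop :=
  ∃ (Γ : Type u) (h : K → Γ → ℝ), IsEmbedding h ∧ (∀ k γ, h k γ ∈ Icc (-1 : ℝ) 1) ∧
    Dense {k | ∀ ε > 0, {γ | ε < |h k γ|}.Finite}

/-- `N` is an equivalent norm. -/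
def IsEquivalentNorm (N : Seminorm ℝ X) : Prop :=
  ∃ c C : ℝ, 0 < c ∧ 0 < C ∧ ∀ x, c * ‖x‖ ≤ N x ∧ N x ≤ C * ‖x‖

/-- The unit dual ball for the original norm, as a type. -/
abbrev UB (X : Type u) [NormedAddCommGroup X] [NormedSpace ℝ X] : Type u :=
  dualBall (normSeminorm ℝ X)

/-- The main finiteness property: on `G` the family `H` is sigma-`c₀`. -/
def SigmaC0 {K : Type*} {Δ : Type*} (G : Set K) (H : Δ → K → ℝ) : Prop :=
  ∀ ε : ℝ, 0 < ε → ∃ n : Δ → ℕ, ∀ g ∈ G, ∀ m, {δ | n δ = m ∧ ε < |H δ g|}.Finite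

/-- The key renorming lemma. -/
theorem key (hX : ∀ N : Seminorm ℝ X, IsEquivalentNorm N → IsSemiEberlein (dualBall N))
    {J : Type*} (f : J → WeakDual ℝ X) (e : J → X) {R : ℝ} (hR : 1 ≤ R)
    (hf : ∀ j x, |f j x| ≤ 2 * ‖x‖) (he : ∀ j, ‖e j‖ ≤ R) (hfe : ∀ j, f j (e j) = 1)
    (hfe' : ∀ i j, i ≠ j → |f j (e i)| ≤ 1 / 8)
    (hcount : ∀ x, {j | f j x ≠ 0}.Countable)
    (G : Set (UB X)) (γ : J → UB X) (hγ : ∀ g ∈ G, ¬ {j | γ j = g}.Countable) :
    ∃ (Δ : Type u) (H : Δ → UB X → ℝ), (∀ δ, Continuous (H δ)) ∧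
      (∀ y y', (∀ δ, H δ y = H δ y') → y = y') ∧ SigmaC0 G H := by
  have hR0 : 0 < R := by linarith
  set r : ℝ := 1 / (8 * R) with hr
  have hr0 : 0 < r := by positivity
  have hrR : r * R = 1 / 8 := by rw [hr]; field_simp
  have hr8 : r ≤ 1 / 8 := by
    rw [hr]
    apply one_div_le_one_div_of_le (by norm_num)
    linarith
  let δ : NNReal := ⟨1 / (2 * R), by positivity⟩
  have hδv : (δ : ℝ) = 1 / (2 * R) := rfl
  have hδR : (δ : ℝ) * R = 1 / 2 := by rw [hδv]; field_simp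
  have hδ3 : (δ : ℝ) ≤ 3 := by
    rw [hδv]
    have : (1 : ℝ) / (2 * R) ≤ 1 / 2 := by
      apply one_div_le_one_div_of_le (by norm_num); linarith
    linarith
  have hrδ : r ≤ δ := by
    rw [hδv, hr]
    apply one_div_le_one_div_of_le (by positivity); linarith
  -- the new points
  let pw : J → WeakDual ℝ X := fun j => f j + r • (γ j : WeakDual ℝ X)
  let p : J → X →ₗ[ℝ] ℝ := fun j => (pw j : X →ₗ[ℝ] ℝ)
  have hpval : ∀ j x, p j x = f j x + r * (γ j : WeakDual ℝ X) x := fun j x => rfl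
  have hγb : ∀ (g : UB X) x, |(g : WeakDual ℝ X) x| ≤ ‖x‖ := fun g x => g.2 x
  have hp : ∀ j x, |p j x| ≤ 3 * ‖x‖ := by
    intro j x
    rw [hpval]
    refine (abs_add_le _ _).trans ?_
    rw [abs_mul, abs_of_pos hr0]
    have h1 := hf j x
    have h2 := hγb (γ j) x
    have h3 : r * |(γ j : WeakDual ℝ X) x| ≤ 1 * ‖x‖ :=
      mul_le_mul (by linarith) h2 (abs_nonneg _) (by norm_num)
    linarith
  let N := supSN p δ
  have hNeq : IsEquivalentNorm N :=
    ⟨δ, 3, by rw [hδv]; positivity, by norm_num,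
      fun x => ⟨delta_le_supSN hp hδ3 x, supSN_le_mul hp hδ3 x⟩⟩
  obtain ⟨Δ, h, hemb, -, hdense⟩ := hX N hNeq
  have hcN : IsCompact (dualBall N) :=
    isCompact_dualBall (by norm_num : (0 : ℝ) ≤ 3) (fun x => supSN_le_mul hp hδ3 x)
  haveI : CompactSpace (dualBall N) := isCompact_iff_compactSpace.1 hcN
  -- coordinates
  let hh : Δ → dualBall N → ℝ := fun d y => h y d
  have hhc : ∀ d, Continuous (hh d) := fun d => (continuous_apply d).comp hemb.continuous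
  let ev : X → dualBall N → ℝ := fun x y => (y : WeakDual ℝ X) x
  have hevc : ∀ x, Continuous (ev x) := fun x =>
    (WeakDual.eval_continuous x).comp continuous_subtype_val
  have hevs : ∀ y y', (∀ x, ev x y = ev x y') → y = y' := by
    intro y y' hy
    apply Subtype.ext
    exact DFunLike.ext _ _ hy
  -- points in the ball
  have hpmem : ∀ j, pw j ∈ dualBall N := fun j x => le_supSN hp hδ3 j x
  have hgmem : ∀ g : UB X, r • (g : WeakDual ℝ X) ∈ dualBall N := by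
    intro g x
    have h1 : |(r • (g : WeakDual ℝ X)) x| = r * |(g : WeakDual ℝ X) x| := by
      change |r * (g : WeakDual ℝ X) x| = _
      rw [abs_mul, abs_of_pos hr0]
    rw [h1]
    calc r * |(g : WeakDual ℝ X) x| ≤ δ * ‖x‖ :=
          mul_le_mul hrδ (hγb g x) (abs_nonneg _) δ.2
      _ ≤ N x := delta_le_supSN hp hδ3 x
  -- the approximation classes
  let P : ℝ → ℕ → Δ → Prop := fun ε n d => ∀ y y' : dualBall N,
    (∀ x, |ev x y - ev x y'| ≤ 1 / ((n : ℝ) + 1) * ‖x‖) → |hh d y - hh d y'| ≤ ε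
  have hPex : ∀ ε : ℝ, 0 < ε → ∀ d, ∃ n, P ε n d := by
    intro ε hε d
    obtain ⟨F, η, hη, hF⟩ := uc ev hevc hevs (hh d) (hhc d) hε
    obtain ⟨C, hC⟩ : ∃ C : ℝ, ∀ x ∈ F, ‖x‖ ≤ C := by
      obtain ⟨C, hC⟩ := (F.finite_toSet.image (fun x => ‖x‖)).bddAbove
      exact ⟨C, fun x hx => hC ⟨x, hx, rfl⟩⟩
    set C' := max C 0 + 1 with hC'
    have hC'pos : 0 < C' := by positivity
    obtain ⟨n, hn⟩ := exists_nat_one_div_lt (show (0 : ℝ) < η / C' by positivity)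
    refine ⟨n, fun y y' hyy => (hF y y' fun x hx => ?_).le⟩
    have h1 : ‖x‖ < C' := lt_of_le_of_lt ((hC x hx).trans (le_max_left _ _)) (by linarith)
    calc |ev x y - ev x y'| ≤ 1 / ((n : ℝ) + 1) * ‖x‖ := hyy x
      _ ≤ 1 / ((n : ℝ) + 1) * C' := mul_le_mul_of_nonneg_left h1.le (by positivity)
      _ < η / C' * C' := mul_lt_mul_of_pos_right hn hC'pos
      _ = η := by field_simp
  -- points p j are approximable by c0 points
  have happrox : ∀ j, ∀ t : ℝ, 0 < t → ∃ y : dualBall N,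
      (∀ ε > 0, {d | ε < |h y d|}.Finite) ∧
      ∀ x, |ev x y - ev x ⟨pw j, hpmem j⟩| ≤ t * ‖x‖ := by
    intro j t ht
    have a1 : 7 / 8 ≤ p j (e j) := by
      rw [hpval, hfe]
      have h2 := hγb (γ j) (e j)
      have h3 : |r * (γ j : WeakDual ℝ X) (e j)| ≤ 1 / 8 := by
        rw [abs_mul, abs_of_pos hr0, ← hrR]
        exact mul_le_mul_of_nonneg_left (h2.trans (he j)) hr0.le
      have := (abs_le.1 h3).1
      linarith
    have a2 : ∀ i, i ≠ j → |p i (e j)| ≤ 1 / 2 := by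
      intro i hij
      rw [hpval]
      refine (abs_add_le _ _).trans ?_
      have h2 := hγb (γ i) (e j)
      have h3 : |r * (γ i : WeakDual ℝ X) (e j)| ≤ 1 / 8 := by
        rw [abs_mul, abs_of_pos hr0, ← hrR]
        exact mul_le_mul_of_nonneg_left (h2.trans (he j)) hr0.le
      have h4 := hfe' j i hij.symm
      linarith
    have a3 : δ * ‖e j‖ ≤ 1 / 2 := by
      rw [← hδR]
      exact mul_le_mul_of_nonneg_left (he j) δ.2
    obtain ⟨η, hη, hden⟩ := denting hp hδ3 j (e j) a1 a2 a3 ht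
    have hopen : IsOpen {y : dualBall N | p j (e j) - η < ev (e j) y} :=
      isOpen_lt continuous_const (hevc (e j))
    have hne : ({y : dualBall N | p j (e j) - η < ev (e j) y}).Nonempty :=
      ⟨⟨pw j, hpmem j⟩, by change p j (e j) - η < p j (e j); linarith⟩
    obtain ⟨y, hy1, hy2⟩ := hdense.inter_open_nonempty _ hopen hne
    exact ⟨y, hy2, fun x => hden y y.2 hy1 x⟩
  -- finiteness at p j
  have hfin1 : ∀ j (ε : ℝ), 0 < ε → ∀ n,
      {d | P ε n d ∧ 2 * ε < |h ⟨pw j, hpmem j⟩ d|}.Finite := by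
    intro j ε hε n
    obtain ⟨y, hy1, hy2⟩ := happrox j (1 / ((n : ℝ) + 1)) (by positivity)
    refine (hy1 ε hε).subset ?_
    rintro d ⟨hd1, hd2⟩
    have h1 : |hh d y - hh d ⟨pw j, hpmem j⟩| ≤ ε := hd1 _ _ hy2
    have h2 : |h ⟨pw j, hpmem j⟩ d| ≤ |h y d| + |h y d - h ⟨pw j, hpmem j⟩ d| := by
      have := abs_sub_abs_le_abs_sub (h ⟨pw j, hpmem j⟩ d) (h y d)
      rw [abs_sub_comm] at this
      linarith
    have h3 : |h y d - h ⟨pw j, hpmem j⟩ d| ≤ ε := h1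
    change ε < |h y d|
    linarith
  -- passing to the limit
  have hlim : ∀ g ∈ G, ∀ d, {j | γ j = g ∧ h ⟨pw j, hpmem j⟩ d ≠ h ⟨r • (g : WeakDual ℝ X), hgmem g⟩ d}.Countable := by
    intro g _ d
    obtain ⟨E, hEc, hE⟩ := dep ev hevc hevs (hh d) (hhc d)
    have hc : (⋃ x ∈ E, {j | f j x ≠ 0}).Countable := hEc.biUnion fun x _ => hcount x
    refine hc.mono ?_
    rintro j ⟨hj1, hj2⟩
    by_contra hcon
    simp only [mem_iUnion, mem_setOf_eq, not_exists, not_not] at hcon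
    apply hj2
    refine hE _ _ fun x hx => ?_
    change f j x + r * (γ j : WeakDual ℝ X) x = r * (g : WeakDual ℝ X) x
    rw [hj1, hcon x hx, zero_add]
  have hfin2 : ∀ g ∈ G, ∀ ε : ℝ, 0 < ε → ∀ n,
      {d | P ε n d ∧ 2 * ε < |h ⟨r • (g : WeakDual ℝ X), hgmem g⟩ d|}.Finite := by
    intro g hg ε hε n
    by_contra hinf
    obtain ⟨S, hS1, hS2, hS3⟩ : ∃ S : Set Δ, S ⊆ {d | P ε n d ∧ 2 * ε <
        |h ⟨r • (g : WeakDual ℝ X), hgmem g⟩ d|} ∧ S.Countable ∧ S.Infinite := by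
      have hinf' : Set.Infinite {d | P ε n d ∧ 2 * ε <
        |h ⟨r • (g : WeakDual ℝ X), hgmem g⟩ d|} := hinf
      let em := hinf'.natEmbedding
      refine ⟨range fun k => (em k : Δ), ?_, countable_range _, ?_⟩
      · rintro _ ⟨k, rfl⟩; exact (em k).2
      · exact infinite_range_of_injective (Subtype.val_injective.comp em.injective)
    have hc : (⋃ d ∈ S, {j | γ j = g ∧ h ⟨pw j, hpmem j⟩ d ≠
        h ⟨r • (g : WeakDual ℝ X), hgmem g⟩ d}).Countable :=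
      hS2.biUnion fun d _ => hlim g hg d
    obtain ⟨j, hj1, hj2⟩ : ∃ j, γ j = g ∧ j ∉ (⋃ d ∈ S, {j | γ j = g ∧ h ⟨pw j, hpmem j⟩ d ≠
        h ⟨r • (g : WeakDual ℝ X), hgmem g⟩ d}) := by
      by_contra hcon
      push Not at hcon
      exact hγ g hg (hc.mono hcon)
    apply hS3
    refine (hfin1 j ε hε n).subset fun d hd => ?_
    have heq : h ⟨pw j, hpmem j⟩ d = h ⟨r • (g : WeakDual ℝ X), hgmem g⟩ d := by
      by_contra hne
      exact hj2 (mem_iUnion₂.2 ⟨d, hd, hj1, hne⟩)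
    have := hS1 hd
    exact ⟨this.1, by rw [heq]; exact this.2⟩
  -- conclusion
  refine ⟨Δ, fun d g => h ⟨r • (g : WeakDual ℝ X), hgmem g⟩ d, ?_, ?_, ?_⟩
  · intro d
    refine (hhc d).comp ?_
    exact (continuous_subtype_val.const_smul r).subtype_mk _
  · intro y y' hyy
    have h1 : (⟨r • (y : WeakDual ℝ X), hgmem y⟩ : dualBall N) =
        ⟨r • (y' : WeakDual ℝ X), hgmem y'⟩ := hemb.injective (funext hyy)
    have h2 : r • (y : WeakDual ℝ X) = r • (y' : WeakDual ℝ X) := congrArg Subtype.val h1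
    apply Subtype.ext
    refine DFunLike.ext _ _ fun x => ?_
    have h3 := DFunLike.congr_fun h2 x
    change r * (y : WeakDual ℝ X) x = r * (y' : WeakDual ℝ X) x at h3
    exact mul_left_cancel₀ hr0.ne' h3
  · intro ε hε
    classical
    have hε2 : 0 < ε / 2 := by linarith
    refine ⟨fun d => Nat.find (hPex (ε / 2) hε2 d), fun g hg m => ?_⟩
    refine (hfin2 g hg (ε / 2) hε2 m).subset ?_
    rintro d ⟨hd1, hd2⟩
    refine ⟨?_, by linarith⟩
    rw [← hd1]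
    exact Nat.find_spec (hPex (ε / 2) hε2 d)

end Pool.Agent.SemiEb
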