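import Mathlib
import Pool.Agent.Lib.SemiEb.Renorm

/-!
From one-sided well-ordered systems to almost biorthogonal systems.
-/

open Set Filter Topology Cardinal

universe u v

namespace Pool.Agent.SemiEb

/-- Dependent choice along a well-founded relation. -/
lemma wf_choice {ι : Type*} {r : ι → ι → Prop} (hr : WellFounded r) {α : Type*}
    (Φ : (i : ι) → ((j : ι) → r j i → α) → α → Prop) (h : ∀ i prev, ∃ a, Φ i prev a) :
    ∃ F : ι → α, ∀ i, Φ i (fun j _ => F j) (F i) := by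
  choose ch hch using h
  refine ⟨hr.fix (fun i prev => ch i prev), fun i => ?_⟩
  rw [hr.fix_eq]
  exact hch i _

/-- Greedy colouring. -/
lemma greedy {ι : Type*} [LinearOrder ι] [WellFoundedLT ι] (B : ι → Set ι)
    (hB : ∀ i, (B i).Finite) (hB' : ∀ i, ∀ j ∈ B i, j < i) :
    ∃ c : ι → ℕ, ∀ i, ∀ j ∈ B i, c j ≠ c i := by
  obtain ⟨c, hc⟩ := wf_choice (α := ℕ) (IsWellFounded.wf (r := ((· < ·) : ι → ι → Prop)))
    (fun i prev a => ∀ j (hj : j < i), j ∈ B i → prev j hj ≠ a)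
    (by
      intro i prev
      have hfin : {a : ℕ | ∃ j, ∃ hj : j < i, j ∈ B i ∧ prev j hj = a}.Finite := by
        classical
        refine ((hB i).image (fun j => if hj : j < i then prev j hj else 0)).subset ?_
        rintro a ⟨j, hj, hjB, rfl⟩
        exact ⟨j, hjB, by simp [hj]⟩
      obtain ⟨a, ha⟩ := hfin.exists_notMem
      exact ⟨a, fun j hj hjB heq => ha ⟨j, hj, hjB, heq⟩⟩)
  exact ⟨c, fun i j hj => hc i j (hB' i j hj) hj⟩

variable {X : Type u} [NormedAddCommGroup X] [NormedSpace ℝ X]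

/-- From a one-sided system indexed by a well-order to an almost biorthogonal bounded one. -/
lemma exists_almost_biorth {ι : Type u} [LinearOrder ι] [WellFoundedLT ι]
    (f : ι → WeakDual ℝ X) (e : ι → X)
    (hfe' : ∀ i j, i < j → f j (e i) = 0)
    (hnull : ∀ x, ∀ ρ > 0, {j | ρ < |f j x|}.Finite)
    (θ : Cardinal.{u}) (hθ : ℵ₀ < θ.ord.cof) (hι : θ ≤ #ι) :
    ∃ J : Set ι, θ ≤ #J ∧ ∃ R : ℝ, 1 ≤ R ∧ (∀ j ∈ J, ‖e j‖ ≤ R) ∧
      ∀ i ∈ J, ∀ j ∈ J, i ≠ j → |f j (e i)| ≤ 1 / 8 := by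
  obtain ⟨c, hc⟩ := greedy (fun i : ι => {j | j < i ∧ 1 / 8 < |f j (e i)|})
    (fun i => (hnull (e i) (1 / 8) (by norm_num)).subset fun j hj => hj.2)
    (fun i j hj => hj.1)
  have hθ0 : ℵ₀ ≤ θ := by
    have := Ordinal.cof_le_card θ.ord
    rw [Cardinal.card_ord] at this
    exact hθ.le.trans this
  let F : ι → ULift.{u} (ℕ × ℕ) := fun i => ⟨(c i, ⌈‖e i‖⌉₊)⟩
  obtain ⟨⟨a, n⟩, ha⟩ := infinite_pigeonhole_card F θ hι hθ0 (by simpa using hθ)
  refine ⟨F ⁻¹' {⟨(a, n)⟩}, ha, (n : ℝ) + 1, by linarith [Nat.cast_nonneg (α := ℝ) n], ?_, ?_⟩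
  · intro j hj
    have h1 : F j = ⟨(a, n)⟩ := hj
    have h2 : ⌈‖e j‖⌉₊ = n := congrArg (fun z => z.down.2) h1
    have h3 := Nat.le_ceil ‖e j‖
    rw [h2] at h3
    linarith
  · intro i hi j hj hij
    have h1 : c i = a := congrArg (fun z => z.down.1) (show F i = ⟨(a, n)⟩ from hi)
    have h2 : c j = a := congrArg (fun z => z.down.1) (show F j = ⟨(a, n)⟩ from hj)
    rcases lt_trichotomy i j with h | h | h
    · rw [hfe' i j h]; norm_num
    · exact absurd h hij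
    · by_contra hcon
      exact hc i j ⟨h, not_le.1 hcon⟩ (h2.trans h1.symm)

/-- Combination of the previous facts with the key renorming lemma. -/
theorem key2 (hX : ∀ N : Seminorm ℝ X, IsEquivalentNorm N → IsSemiEberlein (dualBall N))
    {ι : Type u} [LinearOrder ι] [WellFoundedLT ι]
    (f : ι → WeakDual ℝ X) (e : ι → X) (hf : ∀ j x, |f j x| ≤ 2 * ‖x‖)
    (hfe : ∀ j, f j (e j) = 1) (hfe' : ∀ i j, i < j → f j (e i) = 0)
    (hnull : ∀ x, ∀ ρ > 0, {j | ρ < |f j x|}.Finite)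
    (θ : Cardinal.{u}) (hθ : ℵ₀ < θ.ord.cof) (hι : θ ≤ #ι)
    (G : Set (UB X)) (hG : #G ≤ θ) :
    ∃ (Δ : Type u) (H : Δ → UB X → ℝ), (∀ δ, Continuous (H δ)) ∧
      (∀ y y', (∀ δ, H δ y = H δ y') → y = y') ∧ SigmaC0 G H := by
  obtain ⟨J, hJ, R, hR, hJR, hJ8⟩ := exists_almost_biorth f e hfe' hnull θ hθ hι
  have hθ0 : ℵ₀ < θ := by
    have := Ordinal.cof_le_card θ.ord
    rw [Cardinal.card_ord] at this
    exact hθ.trans_le this
  have hθ1 : ℵ₁ ≤ θ := by
    rw [← succ_aleph0]; exact Order.succ_le_of_lt hθ0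
  let W : Type u := (ℵ₁ : Cardinal.{u}).out
  have hW : #W = ℵ₁ := mk_out _
  have hle : #(G × W) ≤ #J := by
    rw [mk_prod, lift_id, lift_id, hW]
    calc #G * ℵ₁ ≤ θ * θ := mul_le_mul' hG hθ1
      _ = θ := mul_eq_self hθ0.le
      _ ≤ #J := hJ
  obtain ⟨ψ⟩ := Cardinal.le_def _ _ |>.1 hle
  let z : UB X := ⟨0, fun x => by
    change |(0 : ℝ)| ≤ _
    simp⟩
  let γ : J → UB X := Function.extend ψ (fun q => (q.1 : UB X)) (fun _ => z)
  have hγ : ∀ g ∈ G, ¬ {j | γ j = g}.Countable := by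
    intro g hg hcnt
    have h1 : range (fun w : W => ψ (⟨g, hg⟩, w)) ⊆ {j | γ j = g} := by
      rintro _ ⟨w, rfl⟩
      change γ (ψ (⟨g, hg⟩, w)) = g
      simp only [γ]
      rw [ψ.injective.extend_apply]
    have h2 := hcnt.mono h1
    have hinj : Function.Injective (fun w : W => ψ (⟨g, hg⟩, w)) := by
      intro w w' hw
      have := ψ.injective hw
      exact (Prod.mk.inj this).2
    have h3 : #(range (fun w : W => ψ (⟨g, hg⟩, w))) = ℵ₁ := by
      rw [mk_range_eq _ hinj, hW]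
    have h4 := (Cardinal.le_aleph0_iff_set_countable).2 h2
    rw [h3] at h4
    exact absurd h4 (not_le.2 aleph0_lt_aleph_one)
  have hcount : ∀ x, {j : J | f j x ≠ 0}.Countable := by
    intro x
    have h1 : {j : ι | f j x ≠ 0}.Countable := by
      have : {j : ι | f j x ≠ 0} ⊆ ⋃ n : ℕ, {j | 1 / ((n : ℝ) + 1) < |f j x|} := by
        intro j hj
        obtain ⟨n, hn⟩ := exists_nat_one_div_lt (abs_pos.2 hj)
        exact mem_iUnion.2 ⟨n, hn⟩
      exact (countable_iUnion fun n => (hnull x _ (by positivity)).countable).mono this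
    exact h1.preimage Subtype.val_injective
  exact key hX (fun j : J => f j) (fun j => e j) hR (fun j x => hf j x)
    (fun j => hJR j j.2) (fun j => hfe j)
    (fun i j hij => hJ8 i i.2 j j.2 (fun h => hij (Subtype.ext h))) hcount G γ hγ

end Pool.Agent.SemiEb
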