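import Mathlib
import Pool.Agent.Lib.SemiEb.System

/-!
Good sets of coordinates (retractions) of Valdivia compacta.
-/

open Set Filter Topology Cardinal

universe u v

namespace Pool.Agent.SemiEb

section Card

lemma mk_finset_le_max (α : Type u) : #(Finset α) ≤ max #α ℵ₀ := by
  rcases finite_or_infinite α with hα | hα
  · exact le_max_of_le_right (Cardinal.mk_le_aleph0)
  · rw [mk_finset_of_infinite]; exact le_max_left _ _

lemma mk_iUnion_countable_le {ι : Type u} {Δ : Type u} (f : ι → Set Δ)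
    (hf : ∀ i, (f i).Countable) : #(⋃ i, f i) ≤ max #ι ℵ₀ := by
  refine (mk_iUnion_le f).trans ?_
  have h1 : (⨆ i, #(f i)) ≤ ℵ₀ := ciSup_le' fun i => (le_aleph0_iff_set_countable).2 (hf i)
  refine (mul_le_mul' le_rfl h1).trans ?_
  refine (Cardinal.mul_le_max _ _).trans ?_
  simp

lemma mk_iUnion_nat_le {Δ : Type u} (f : ℕ → Set Δ) {c : Cardinal.{u}} (hc : ℵ₀ ≤ c)
    (hf : ∀ i, #(f i) ≤ c) : #(⋃ i, f i) ≤ c := by
  have h0 := mk_iUnion_le_lift.{u, 0} f
  simp only [lift_uzero, mk_nat, lift_aleph0] at h0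
  refine h0.trans ?_
  have h1 : (⨆ i, #(f i)) ≤ c := ciSup_le' fun i => hf i
  refine (mul_le_mul' hc h1).trans ?_
  rw [mul_eq_self hc]

end Card

section Good

variable {K : Type u} {Δ : Type u} [TopologicalSpace K] [CompactSpace K] {h : K → Δ → ℝ}

lemma isClosed_range_of_emb (hemb : IsEmbedding h) : IsClosed (range h) :=
  (isCompact_range hemb.continuous).isClosed

/-- The restriction of `h p` to `S` is attained. -/
def GoodAt (h : K → Δ → ℝ) (S : Set Δ) (p : K) : Prop :=
  ∃ y : K, ∀ δ, h y δ = S.indicator (h p) δ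

/-- Directed unions of good sets are good. -/
lemma goodAt_iUnion (hemb : IsEmbedding h) {κ : Type*} [Nonempty κ] {S : κ → Set Δ}
    (hS : Directed (· ⊆ ·) S) {p : K} (hg : ∀ k, GoodAt h (S k) p) :
    GoodAt h (⋃ k, S k) p := by
  classical
  set z : Δ → ℝ := fun δ => (⋃ k, S k).indicator (h p) δ with hz
  have hzc : z ∈ closure (range h) := by
    rw [mem_closure_iff]
    intro U hU hzU
    obtain ⟨I, u, hu, hIU⟩ := isOpen_pi_iff.1 hU z hzU
    have hfin : ((I : Set Δ) ∩ (⋃ k, S k)).Finite := I.finite_toSet.inter_of_left _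
    obtain ⟨k, hk⟩ := hS.exists_mem_subset_of_finset_subset_biUnion
      (s := hfin.toFinset) (by simp)
    obtain ⟨y, hy⟩ := hg k
    refine ⟨h y, hIU ?_, mem_range_self y⟩
    intro δ hδ
    have : h y δ = z δ := by
      rw [hy, hz]
      by_cases hδS : δ ∈ ⋃ k, S k
      · have h1 : δ ∈ S k := hk (by simp only [Finite.coe_toFinset]; exact ⟨hδ, hδS⟩)
        simp [h1, hδS]
      · have h1 : δ ∉ S k := fun hh => hδS (mem_iUnion.2 ⟨k, hh⟩)
        simp only [indicator_of_notMem h1, indicator_of_notMem hδS]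
    rw [this]
    exact (hu δ hδ).2
  rw [(isClosed_range_of_emb hemb).closure_eq] at hzc
  obtain ⟨y, hy⟩ := hzc
  exact ⟨y, fun δ => congrFun hy δ⟩

/-- The closing-off lemma: in a compact space in which the points of countable support are
dense, each set of coordinates is contained in a good one of the same cardinality. -/
lemma exists_good (hemb : IsEmbedding h) {A : Set K} (hA : Dense A)
    (hAc : ∀ y ∈ A, {δ | h y δ ≠ 0}.Countable) (Δ₀ : Set Δ) :
    ∃ Δ₁ : Set Δ, Δ₀ ⊆ Δ₁ ∧ #Δ₁ ≤ max #Δ₀ ℵ₀ ∧ ∀ p, GoodAt h Δ₁ p := by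
  classical
  -- supports of chosen realizations
  let sat : K → Finset (Δ × ℚ × ℚ) → Prop := fun d c =>
    ∀ q ∈ c, (q.2.1 : ℝ) < h d q.1 ∧ h d q.1 < q.2.2
  let sup : Finset (Δ × ℚ × ℚ) → Set Δ := fun c =>
    if hc : ∃ d ∈ A, sat d c then {δ | h hc.choose δ ≠ 0} else ∅
  have hsup : ∀ c, (sup c).Countable := by
    intro c
    simp only [sup]
    split_ifs with hc
    · exact hAc _ hc.choose_spec.1
    · exact countable_empty
  obtain ⟨T, hT⟩ : ∃ T : ∀ S : Set Δ, Finset (S × ℚ × ℚ) → Finset (Δ × ℚ × ℚ),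
      ∀ S c q, q ∈ T S c ↔ ∃ r ∈ c, (r.1.1, r.2) = q :=
    ⟨fun S c => c.image (fun q => (q.1.1, q.2)), fun S c q => by simp only [Finset.mem_image]⟩
  let step : Set Δ → Set Δ := fun S => S ∪ ⋃ c : Finset (S × ℚ × ℚ), sup (T S c)
  have hstepc : ∀ S : Set Δ, #(step S) ≤ max #S ℵ₀ := by
    intro S
    have h1 : #(Finset (S × ℚ × ℚ)) ≤ max #S ℵ₀ := by
      refine (mk_finset_le_max _).trans ?_
      refine max_le ?_ (le_max_right _ _)
      rw [mk_prod, lift_uzero]
      refine (Cardinal.mul_le_max _ _).trans ?_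
      refine max_le (max_le (le_max_left _ _) ?_) (le_max_right _ _)
      refine le_max_of_le_right ?_
      rw [lift_le_aleph0]
      exact mk_le_aleph0
    have h2 : #(⋃ c : Finset (S × ℚ × ℚ), sup (T S c) : Set Δ)
        ≤ max #S ℵ₀ := by
      refine (mk_iUnion_countable_le _ fun c => hsup _).trans ?_
      exact max_le h1 (le_max_right _ _)
    refine (mk_union_le _ _).trans ?_
    refine (add_le_add (le_max_left #S ℵ₀) h2).trans ?_
    rw [add_eq_self (le_max_right _ _)]
  let D : ℕ → Set Δ := fun n => Nat.rec Δ₀ (fun _ S => step S) n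
  have hDmono : Monotone D := monotone_nat_of_le_succ fun n => subset_union_left
  have hDc : ∀ n, #↥(D n) ≤ max #Δ₀ ℵ₀ := by
    intro n
    induction n with
    | zero => exact le_max_left _ _
    | succ n ih => exact (hstepc (D n)).trans (max_le ih (le_max_right _ _))
  refine ⟨⋃ n, D n, subset_iUnion D 0, mk_iUnion_nat_le D (le_max_right _ _) hDc, ?_⟩
  · intro p
    set z : Δ → ℝ := fun δ => (⋃ n, D n).indicator (h p) δ with hz
    have hzc : z ∈ closure (range h) := by
      rw [mem_closure_iff]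
      intro U hU hzU
      obtain ⟨I, u, hu, hIU⟩ := isOpen_pi_iff.1 hU z hzU
      have hfin : ((I : Set Δ) ∩ (⋃ k, D k)).Finite := I.finite_toSet.inter_of_left _
      obtain ⟨n, hn⟩ := hDmono.directed_le.exists_mem_subset_of_finset_subset_biUnion
        (s := hfin.toFinset) (by simp)
      have hn' : ∀ δ ∈ hfin.toFinset, δ ∈ D n := fun δ hδ => hn hδ
      -- choose rational intervals
      have hab : ∀ δ : Δ, δ ∈ hfin.toFinset → ∃ a b : ℚ, (a : ℝ) < h p δ ∧ h p δ < b ∧
          Ioo (a : ℝ) b ⊆ u δ := by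
        intro δ hδ
        have hδ' : δ ∈ (I : Set Δ) ∩ (⋃ k, D k) := by simpa using hδ
        have h1 : u δ ∈ 𝓝 (h p δ) := by
          have h2 : z δ = h p δ := by simp only [hz]; exact indicator_of_mem hδ'.2 _
          rw [← h2]
          exact (hu δ hδ'.1).1.mem_nhds (hu δ hδ'.1).2
        obtain ⟨l, r, hlr, hsub⟩ := mem_nhds_iff_exists_Ioo_subset.1 h1
        obtain ⟨a, ha1, ha2⟩ := exists_rat_btwn hlr.1
        obtain ⟨b, hb1, hb2⟩ := exists_rat_btwn hlr.2
        exact ⟨a, b, ha2, hb1, (Ioo_subset_Ioo ha1.le hb2.le).trans hsub⟩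
      choose! a b hab1 hab2 hab3 using hab
      let c : Finset (↥(D n) × ℚ × ℚ) :=
        hfin.toFinset.attach.image (fun δ => (⟨δ.1, hn' δ.1 δ.2⟩, a δ.1, b δ.1))
      set c' : Finset (Δ × ℚ × ℚ) := T (D n) c with hc'def
      have hc'mem : ∀ q : Δ × ℚ × ℚ, q ∈ c' ↔ q.1 ∈ hfin.toFinset ∧ q.2 = (a q.1, b q.1) := by
        rintro ⟨δ, q⟩
        rw [hc'def, hT]
        simp only [c, Finset.mem_image, Finset.mem_attach, true_and]
        constructor
        · rintro ⟨_, ⟨⟨δ', hδ'⟩, rfl⟩, hq⟩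
          simp only [Prod.mk.injEq] at hq
          obtain ⟨rfl, rfl⟩ := hq
          exact ⟨hδ', rfl⟩
        · rintro ⟨h1, h2⟩
          exact ⟨_, ⟨⟨δ, h1⟩, rfl⟩, by rw [h2]⟩
      -- the constraints are satisfiable in A
      have hopen : IsOpen {y : K | sat y c'} := by
        have : {y : K | sat y c'} = ⋂ q ∈ c', {y : K | (q.2.1 : ℝ) < h y q.1 ∧ h y q.1 < q.2.2} := by
          ext y; simp [sat]
        rw [this]
        refine isOpen_biInter_finset fun q _ => ?_
        have hcq : Continuous fun y => h y q.1 := (continuous_apply q.1).comp hemb.continuous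
        exact (isOpen_lt continuous_const hcq).inter (isOpen_lt hcq continuous_const)
      have hpmem : p ∈ {y : K | sat y c'} := by
        rintro ⟨δ, q1, q2⟩ hq
        obtain ⟨hq1, hq2⟩ := (hc'mem _).1 hq
        simp only [Prod.mk.injEq] at hq2
        rw [hq2.1, hq2.2]
        exact ⟨hab1 δ hq1, hab2 δ hq1⟩
      obtain ⟨d, hd1, hd2⟩ := hA.inter_open_nonempty _ hopen ⟨p, hpmem⟩
      have hex : ∃ d ∈ A, sat d c' := ⟨d, hd2, hd1⟩
      set d' := hex.choose with hd'
      obtain ⟨hd'A, hd's⟩ := hex.choose_spec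
      have hsupd : {δ | h d' δ ≠ 0} ⊆ ⋃ n, D n := by
        have h1 : sup c' = {δ | h d' δ ≠ 0} := by
          simp only [sup]
          rw [dif_pos hex]
        rw [← h1]
        refine Subset.trans ?_ (subset_iUnion D (n + 1))
        change sup c' ⊆ step (D n)
        exact Subset.trans (subset_iUnion (fun c : Finset (↥(D n) × ℚ × ℚ) =>
          sup (T (D n) c)) c) subset_union_right
      refine ⟨h d', hIU ?_, mem_range_self d'⟩
      intro δ hδ
      by_cases hδS : δ ∈ ⋃ k, D k
      · have hδf : δ ∈ hfin.toFinset := by simp only [Finite.mem_toFinset]; exact ⟨hδ, hδS⟩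
        have := hd's (δ, a δ, b δ) ((hc'mem _).2 ⟨hδf, rfl⟩)
        exact hab3 δ hδf this
      · have h0 : h d' δ = 0 := by
          by_contra hne
          exact hδS (hsupd hne)
        have hz0 : z δ = 0 := by simp only [hz]; exact indicator_of_notMem hδS _
        rw [h0, ← hz0]
        exact (hu δ hδ).2
    rw [(isClosed_range_of_emb hemb).closure_eq] at hzc
    obtain ⟨y, hy⟩ := hzc
    exact ⟨y, fun δ => congrFun hy δ⟩

end Good

end Pool.Agent.SemiEb
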