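import Mathlib
import Pool.Agent.Lib.SemiEb.Good

/-!
If every equivalent dual ball is semi-Eberlein then, in any semi-Eberlein embedding of the
original dual ball, every point has countable support.
-/

open Set Filter Topology Cardinal

universe u v

namespace Pool.Agent.SemiEb

lemma SigmaC0.countable {K Δ : Type*} {G : Set K} {H : Δ → K → ℝ} (hH : SigmaC0 G H)
    {g : K} (hg : g ∈ G) : {δ | H δ g ≠ 0}.Countable := by
  have h1 : ∀ k : ℕ, {δ | 1 / ((k : ℝ) + 1) < |H δ g|}.Countable := by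
    intro k
    obtain ⟨n, hn⟩ := hH (1 / ((k : ℝ) + 1)) (by positivity)
    have : {δ | 1 / ((k : ℝ) + 1) < |H δ g|} ⊆
        ⋃ m, {δ | n δ = m ∧ 1 / ((k : ℝ) + 1) < |H δ g|} := by
      intro δ hδ
      exact mem_iUnion.2 ⟨n δ, rfl, hδ⟩
    exact (countable_iUnion fun m => (hn g hg m).countable).mono this
  refine (countable_iUnion h1).mono ?_
  intro δ hδ
  obtain ⟨k, hk⟩ := exists_nat_one_div_lt (abs_pos.2 hδ)
  exact mem_iUnion.2 ⟨k, hk⟩

lemma countable_Iio_omega1 (i : (ℵ₁ : Cardinal.{u}).ord.ToType) : (Iio i).Countable := by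
  have h := Cardinal.mk_Iio_toType_ord_lt i
  have h2 : #(Iio i) ≤ ℵ₀ := by
    rw [← Order.lt_succ_iff, succ_aleph0]
    exact h
  exact (le_aleph0_iff_set_countable).1 h2

lemma bounded_countable_omega1 {s : Set (ℵ₁ : Cardinal.{u}).ord.ToType} (hs : s.Countable) :
    ∃ k, ∀ j ∈ s, j < k := by
  by_contra hcon
  push Not at hcon
  have h1 : (univ : Set (ℵ₁ : Cardinal.{u}).ord.ToType) ⊆ ⋃ j ∈ s, Iic j := by
    intro k _
    obtain ⟨j, hj, hkj⟩ := hcon k
    exact mem_iUnion₂.2 ⟨j, hj, hkj⟩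
  have h2 : (⋃ j ∈ s, Iic j).Countable := by
    refine hs.biUnion fun j _ => ?_
    rw [← Iio_insert]
    exact (countable_Iio_omega1 j).insert j
  have h3 := (le_aleph0_iff_set_countable).2 (h2.mono h1)
  rw [mk_univ, mk_ord_toType] at h3
  exact absurd h3 (not_le.2 aleph0_lt_aleph_one)

variable {X : Type u} [NormedAddCommGroup X] [NormedSpace ℝ X]

instance compactUB : CompactSpace (UB X) :=
  isCompact_iff_compactSpace.1
    (isCompact_dualBall (N := normSeminorm ℝ X) (C := 1) (by norm_num) (fun x => by simp))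

/-- Evaluation at `x` on the unit dual ball. -/
noncomputable def ev (x : X) (y : UB X) : ℝ := (y : WeakDual ℝ X) x

lemma continuous_ev (x : X) : Continuous (ev (X := X) x) :=
  (WeakDual.eval_continuous x).comp continuous_subtype_val

lemma ev_sep (y y' : UB X) (h : ∀ x, ev x y = ev x y') : y = y' :=
  Subtype.ext (DFunLike.ext _ _ h)

lemma abs_ev_le (x : X) (y : UB X) : |ev x y| ≤ ‖x‖ := y.2 x

theorem corson (hX : ∀ N : Seminorm ℝ X, IsEquivalentNorm N → IsSemiEberlein (dualBall N))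
    {Δ : Type u} {h : UB X → Δ → ℝ} (hemb : IsEmbedding h)
    (hdense : Dense {k : UB X | ∀ ε > 0, {γ | ε < |h k γ|}.Finite}) (p : UB X) :
    {δ | h p δ ≠ 0}.Countable := by
  classical
  by_contra hunc
  have hhc : ∀ δ, Continuous fun y => h y δ := fun δ =>
    (continuous_apply δ).comp hemb.continuous
  have hhs : ∀ y y' : UB X, (∀ δ, h y δ = h y' δ) → y = y' := fun y y' hy =>
    hemb.injective (funext hy)
  -- points of countable support
  set A : Set (UB X) := {y | {δ | h y δ ≠ 0}.Countable} with hAdef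
  have hA : Dense A := by
    refine hdense.mono fun y hy => ?_
    have h1 : ∀ k : ℕ, {δ | 1 / ((k : ℝ) + 1) < |h y δ|}.Countable := fun k =>
      (hy _ (by positivity)).countable
    refine (countable_iUnion h1).mono ?_
    intro δ hδ
    obtain ⟨k, hk⟩ := exists_nat_one_div_lt (abs_pos.2 hδ)
    exact mem_iUnion.2 ⟨k, hk⟩
  have hgood : ∀ Δ₀ : Set Δ, Δ₀.Countable → ∃ Δ₁ : Set Δ, Δ₁.Countable ∧ GoodAt h Δ₁ p ∧
      Δ₀ ⊆ Δ₁ := by
    intro Δ₀ hΔ₀
    obtain ⟨Δ₁, h1, h2, h3⟩ := exists_good hemb hA (fun y hy => hy) Δ₀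
    refine ⟨Δ₁, ?_, h3 p, h1⟩
    rw [← le_aleph0_iff_set_countable] at hΔ₀ ⊢
    exact h2.trans (max_le hΔ₀ le_rfl)
  let 𝒢 := {S : Set Δ // S.Countable ∧ GoodAt h S p}
  let a : 𝒢 → UB X := fun S => S.2.2.choose
  have ha : ∀ S : 𝒢, ∀ δ, h (a S) δ = S.1.indicator (h p) δ := fun S => S.2.2.choose_spec
  have ha1 : ∀ S : 𝒢, ∀ δ ∈ S.1, h (a S) δ = h p δ := fun S δ hδ => by
    rw [ha S δ, indicator_of_mem hδ]
  have ha0 : ∀ S : 𝒢, ∀ δ, δ ∉ S.1 → h (a S) δ = 0 := fun S δ hδ => by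
    rw [ha S δ, indicator_of_notMem hδ]
  -- dependence sets for x
  have hD : ∀ x : X, ∃ E : Set Δ, E.Countable ∧ ∀ y y' : UB X, (∀ δ ∈ E, h y δ = h y' δ) →
      ev x y = ev x y' := fun x => dep (fun δ y => h y δ) hhc hhs (ev x) (continuous_ev x)
  choose D hDc hD using hD
  -- the recursion
  let ι := (ℵ₁ : Cardinal.{u}).ord.ToType
  have hιcard : #ι = ℵ₁ := mk_ord_toType _
  obtain ⟨F, hF⟩ := wf_choice (α := 𝒢 × 𝒢 × X)
    (IsWellFounded.wf (r := ((· < ·) : ι → ι → Prop)))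
    (fun i prev s => (∀ j (hj : j < i), (prev j hj).2.1.1 ⊆ s.1.1 ∧ D (prev j hj).2.2 ⊆ s.1.1) ∧
      s.1.1 ⊆ s.2.1.1 ∧ (∃ δ ∈ s.2.1.1, δ ∉ s.1.1 ∧ h p δ ≠ 0) ∧
      ev s.2.2 (a s.2.1) - ev s.2.2 (a s.1) = 1)
    (by
      intro i prev
      have hT : (⋃ j : Iio i, ((prev j j.2).2.1.1 ∪ D (prev j j.2).2.2)).Countable := by
        have : Countable (Iio i) := (countable_Iio_omega1 i).to_subtype
        exact countable_iUnion fun j => (prev j j.2).2.1.2.1.union (hDc _)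
      obtain ⟨S₁, hS₁c, hS₁g, hS₁⟩ := hgood _ hT
      obtain ⟨δ, hδ1, hδ2⟩ : ∃ δ, h p δ ≠ 0 ∧ δ ∉ S₁ := by
        by_contra hcon
        push Not at hcon
        exact hunc (hS₁c.mono hcon)
      obtain ⟨S₂, hS₂c, hS₂g, hS₂⟩ := hgood (insert δ S₁) (hS₁c.insert δ)
      have hne : a ⟨S₂, hS₂c, hS₂g⟩ ≠ a ⟨S₁, hS₁c, hS₁g⟩ := by
        intro heq
        have h1 := ha1 ⟨S₂, hS₂c, hS₂g⟩ δ (hS₂ (mem_insert _ _))
        have h2 := ha0 ⟨S₁, hS₁c, hS₁g⟩ δ hδ2
        rw [heq, h2] at h1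
        exact hδ1 h1.symm
      obtain ⟨x, hx⟩ : ∃ x : X, ev x (a ⟨S₂, hS₂c, hS₂g⟩) ≠ ev x (a ⟨S₁, hS₁c, hS₁g⟩) := by
        by_contra hcon
        push Not at hcon
        exact hne (ev_sep _ _ hcon)
      have hx' := sub_ne_zero.2 hx
      refine ⟨(⟨S₁, hS₁c, hS₁g⟩, ⟨S₂, hS₂c, hS₂g⟩,
        (ev x (a ⟨S₂, hS₂c, hS₂g⟩) - ev x (a ⟨S₁, hS₁c, hS₁g⟩))⁻¹ • x), ?_, ?_, ?_, ?_⟩
      · intro j hj
        have h1 : (prev j hj).2.1.1 ∪ D (prev j hj).2.2 ⊆ S₁ :=
          (subset_iUnion (fun j : Iio i => ((prev j j.2).2.1.1 ∪ D (prev j j.2).2.2))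
            ⟨j, hj⟩).trans hS₁
        exact ⟨subset_union_left.trans h1, subset_union_right.trans h1⟩
      · exact (subset_insert _ _).trans hS₂
      · exact ⟨δ, hS₂ (mem_insert _ _), hδ2, hδ1⟩
      · change ((a ⟨S₂, hS₂c, hS₂g⟩ : UB X) : WeakDual ℝ X) (_ • x) -
          ((a ⟨S₁, hS₁c, hS₁g⟩ : UB X) : WeakDual ℝ X) (_ • x) = 1
        rw [map_smul, map_smul, smul_eq_mul, smul_eq_mul, ← mul_sub]
        exact inv_mul_cancel₀ hx')
  let Sm : ι → 𝒢 := fun i => (F i).1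
  let Sp : ι → 𝒢 := fun i => (F i).2.1
  let e : ι → X := fun i => (F i).2.2
  have hF1 : ∀ i j, j < i → (Sp j).1 ⊆ (Sm i).1 ∧ D (e j) ⊆ (Sm i).1 := fun i j hj =>
    (hF i).1 j hj
  have hF2 : ∀ i, (Sm i).1 ⊆ (Sp i).1 := fun i => (hF i).2.1
  have hF3 : ∀ i, ∃ δ ∈ (Sp i).1, δ ∉ (Sm i).1 ∧ h p δ ≠ 0 := fun i => (hF i).2.2.1
  have hF4 : ∀ i, ev (e i) (a (Sp i)) - ev (e i) (a (Sm i)) = 1 := fun i => (hF i).2.2.2
  have hmono : Monotone fun i => (Sp i).1 := by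
    intro i j hij
    rcases hij.eq_or_lt with rfl | hlt
    · exact le_rfl
    · exact (hF1 j i hlt).1.trans (hF2 j)
  let f : ι → WeakDual ℝ X := fun i => (a (Sp i) : WeakDual ℝ X) - (a (Sm i) : WeakDual ℝ X)
  have hfv : ∀ i x, f i x = ev x (a (Sp i)) - ev x (a (Sm i)) := fun i x => rfl
  have hfb : ∀ i x, |f i x| ≤ 2 * ‖x‖ := by
    intro i x
    rw [hfv]
    have h1 := abs_ev_le x (a (Sp i))
    have h2 := abs_ev_le x (a (Sm i))
    have h3 := abs_sub (ev x (a (Sp i))) (ev x (a (Sm i)))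
    linarith
  have hagree : ∀ i, ∀ δ, h (a (Sp i)) δ ≠ h (a (Sm i)) δ → δ ∈ (Sp i).1 ∧ δ ∉ (Sm i).1 := by
    intro i δ hne
    constructor
    · by_contra hn
      exact hne (by rw [ha0 _ _ hn, ha0 _ _ (fun hh => hn (hF2 i hh))])
    · intro hm
      exact hne (by rw [ha1 _ _ hm, ha1 _ _ (hF2 i hm)])
  have hfe' : ∀ i j, i < j → f j (e i) = 0 := by
    intro i j hij
    rw [hfv, sub_eq_zero]
    refine hD (e i) _ _ fun δ hδ => ?_
    by_contra hne
    exact (hagree j δ hne).2 ((hF1 j i hij).2 hδ)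
  have hnull : ∀ x, ∀ ρ > 0, {j | ρ < |f j x|}.Finite := by
    intro x ρ hρ
    obtain ⟨I, η, hη, hI⟩ := uc (fun δ y => h y δ) hhc hhs (ev x) (continuous_ev x) hρ
    have hsub : {j | ρ < |f j x|} ⊆ ⋃ δ ∈ I, {j | δ ∈ (Sp j).1 ∧ δ ∉ (Sm j).1} := by
      intro j hj
      have : ¬ ∀ δ ∈ I, |h (a (Sp j)) δ - h (a (Sm j)) δ| < η := by
        intro hall
        have := hI _ _ hall
        have hj' : ρ < |f j x| := hj
        rw [hfv] at hj'
        linarith
      push Not at this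
      obtain ⟨δ, hδI, hδ⟩ := this
      refine mem_iUnion₂.2 ⟨δ, hδI, hagree j δ ?_⟩
      intro heq
      rw [heq, sub_self, abs_zero] at hδ
      linarith
    refine (I.finite_toSet.biUnion fun δ _ => ?_).subset hsub
    refine Set.Subsingleton.finite ?_
    rintro i ⟨hi1, hi2⟩ j ⟨hj1, hj2⟩
    rcases lt_trichotomy i j with hlt | heq | hlt
    · exact absurd ((hF1 j i hlt).1 hi1) hj2
    · exact heq
    · exact absurd ((hF1 i j hlt).1 hj1) hi2
  -- the limit point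
  have : Nonempty ι := by
    rw [← mk_ne_zero_iff, hιcard]
    exact (aleph_pos 1).ne'
  obtain ⟨ainf, hainf⟩ := goodAt_iUnion hemb hmono.directed_le (fun i => (Sp i).2.2)
  -- renorming
  obtain ⟨Δ', H, hHc, hHs, hHσ⟩ := key2 hX f e hfb hF4 hfe' hnull ℵ₁
    (by rw [isRegular_aleph_one.cof_ord]; exact aleph0_lt_aleph_one) hιcard.ge
    (insert ainf (range fun i => a (Sp i)))
    (by
      refine mk_insert_le.trans ?_
      refine (add_le_add (mk_range_le) le_rfl).trans ?_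
      rw [hιcard]
      exact (add_one_eq aleph0_lt_aleph_one.le).le)
  have hD' : ∀ δ' : Δ', ∃ E : Set Δ, E.Countable ∧ ∀ y y' : UB X,
      (∀ δ ∈ E, h y δ = h y' δ) → H δ' y = H δ' y' := fun δ' =>
    dep (fun δ y => h y δ) hhc hhs (H δ') (hHc δ')
  choose D' hD'c hD' using hD'
  let T : ι → Set Δ' := fun i => {δ' | H δ' (a (Sp i)) ≠ 0} ∪ {δ' | H δ' ainf ≠ 0}
  have hTc : ∀ i, (T i).Countable := fun i =>
    (hHσ.countable (mem_insert_of_mem _ (mem_range_self i))).union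
      (hHσ.countable (mem_insert _ _))
  have hstab : ∀ i, ∃ k, i < k ∧ ∀ j, k ≤ j → ∀ δ' ∈ T i, H δ' (a (Sp j)) = H δ' ainf := by
    intro i
    have hCc : ((⋃ δ' ∈ T i, D' δ') ∩ ⋃ i, (Sp i).1).Countable :=
      ((hTc i).biUnion fun δ' _ => hD'c δ').mono inter_subset_left
    have hj : ∀ c ∈ ((⋃ δ' ∈ T i, D' δ') ∩ ⋃ i, (Sp i).1), ∃ j, c ∈ (Sp j).1 :=
      fun c hc => mem_iUnion.1 hc.2
    choose! jc hjc using hj
    obtain ⟨k, hk⟩ := bounded_countable_omega1 ((hCc.image jc).insert i)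
    refine ⟨k, hk i (mem_insert _ _), fun j hkj δ' hδ' => ?_⟩
    refine hD' δ' _ _ fun δ hδ => ?_
    by_cases hδU : δ ∈ ⋃ i, (Sp i).1
    · have hmem : δ ∈ (⋃ δ' ∈ T i, D' δ') ∩ ⋃ i, (Sp i).1 :=
        ⟨mem_iUnion₂.2 ⟨δ', hδ', hδ⟩, hδU⟩
      have h1 : jc δ < k := hk _ (mem_insert_of_mem _ (mem_image_of_mem _ hmem))
      have h2 : δ ∈ (Sp j).1 := hmono (h1.le.trans hkj) (hjc δ hmem)
      rw [ha1 _ _ h2, hainf, indicator_of_mem hδU]
    · have h2 : δ ∉ (Sp j).1 := fun hh => hδU (mem_iUnion.2 ⟨j, hh⟩)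
      rw [ha0 _ _ h2, hainf, indicator_of_notMem hδU]
  choose nx hnx1 hnx2 using hstab
  let s : ℕ → ι := fun n => nx^[n] (Classical.arbitrary ι)
  have hs : ∀ n, s (n + 1) = nx (s n) := fun n => Function.iterate_succ_apply' nx n _
  have hsm : StrictMono s := strictMono_nat_of_lt_succ fun n => by rw [hs]; exact hnx1 _
  have hUmono : Monotone fun n => (Sp (s n)).1 := fun m n hmn => hmono (hsm.monotone hmn)
  obtain ⟨aU, haU⟩ := goodAt_iUnion hemb hUmono.directed_le (fun n => (Sp (s n)).2.2)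
  have htend : Tendsto (fun n => a (Sp (s n))) atTop (𝓝 aU) := by
    rw [hemb.tendsto_nhds_iff, tendsto_pi_nhds]
    intro δ
    by_cases hδ : δ ∈ ⋃ n, (Sp (s n)).1
    · obtain ⟨m, hm⟩ := mem_iUnion.1 hδ
      refine tendsto_const_nhds.congr' ?_
      filter_upwards [eventually_ge_atTop m] with n hn
      simp only [Function.comp_apply]
      rw [haU, indicator_of_mem hδ, ha1 _ _ (hUmono hn hm)]
    · refine tendsto_const_nhds.congr' ?_
      filter_upwards with n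
      simp only [Function.comp_apply]
      have : δ ∉ (Sp (s n)).1 := fun hh => hδ (mem_iUnion.2 ⟨n, hh⟩)
      rw [haU, indicator_of_notMem hδ, ha0 _ _ this]
  have heq : aU = ainf := by
    refine hHs _ _ fun δ' => ?_
    have ht : Tendsto (fun n => H δ' (a (Sp (s n)))) atTop (𝓝 (H δ' aU)) :=
      ((hHc δ').tendsto aU).comp htend
    refine tendsto_nhds_unique ht ?_
    by_cases hδ : ∃ m, δ' ∈ T (s m)
    · obtain ⟨m, hm⟩ := hδ
      refine tendsto_const_nhds.congr' ?_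
      filter_upwards [eventually_ge_atTop (m + 1)] with n hn
      refine (hnx2 (s m) (s n) ?_ δ' hm).symm
      rw [← hs]
      exact hsm.monotone hn
    · push Not at hδ
      refine tendsto_const_nhds.congr' ?_
      filter_upwards with n
      have h1 := hδ n
      simp only [T, mem_union, not_or] at h1
      have h2 : H δ' (a (Sp (s n))) = 0 := by
        by_contra hh; exact h1.1 hh
      have h3 : H δ' ainf = 0 := by
        by_contra hh; exact h1.2 hh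
      rw [h2, h3]
  obtain ⟨k, hk⟩ := bounded_countable_omega1 (countable_range s)
  obtain ⟨δ, hδ1, hδ2, hδ3⟩ := hF3 k
  have h1 : h ainf δ = h p δ := by rw [hainf, indicator_of_mem (mem_iUnion.2 ⟨k, hδ1⟩)]
  have h2 : h aU δ = 0 := by
    rw [haU, indicator_of_notMem]
    intro hmem
    obtain ⟨n, hn⟩ := mem_iUnion.1 hmem
    exact hδ2 ((hF1 k (s n) (hk _ (mem_range_self n))).1 hn)
  rw [← heq, h2] at h1
  exact hδ3 h1.symm

end Pool.Agent.SemiEb
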