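import Mathlib

/-!
`C(K)` is weakly compactly generated when `K` carries a separating `c₀`-family of continuous
functions with values in `[0,1]`.
-/

open Set Filter Topology MeasureTheory
open scoped CompactlySupported Pointwise

universe u v

namespace Pool.Agent.SemiEb

/-- A normed space is weakly compactly generated. -/
def IsWCG (Y : Type u) [NormedAddCommGroup Y] [NormedSpace ℝ Y] : Prop :=
  ∃ W : Set Y, IsCompact (toWeakSpace ℝ Y '' W) ∧ Dense (Submodule.span ℝ W : Set Y)

section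

variable {K : Type u} [TopologicalSpace K] [CompactSpace K] [T2Space K]

/-- A positive functional on `C(K)` satisfies bounded convergence. -/
lemma positive_tendsto (Λ : StrongDual ℝ C(K, ℝ)) (hΛ : ∀ f : C(K, ℝ), (∀ x, 0 ≤ f x) → 0 ≤ Λ f)
    (g : ℕ → C(K, ℝ)) (h0 : ∀ n x, 0 ≤ g n x) (h1 : ∀ n x, g n x ≤ 1)
    (hlim : ∀ x, Tendsto (fun n => g n x) atTop (𝓝 0)) :
    Tendsto (fun n => Λ (g n)) atTop (𝓝 0) := by
  let _ : MeasurableSpace K := borel K
  have _ : BorelSpace K := ⟨rfl⟩
  let E : C_c(K, ℝ) → C(K, ℝ) := fun f => f.toContinuousMap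
  let L : C_c(K, ℝ) →ₗ[ℝ] ℝ :=
    { toFun := fun f => Λ (E f)
      map_add' := fun f g => by
        rw [← map_add]; rfl
      map_smul' := fun c f => by
        rw [RingHom.id_apply, ← map_smul]; rfl }
  let P : C_c(K, ℝ) →ₚ[ℝ] ℝ := PositiveLinearMap.mk₀ L (fun f hf => hΛ _ (fun x => hf x))
  let ν := RealRMK.rieszMeasure P
  have hν : ∀ f : C(K, ℝ), ∫ x, f x ∂ν = Λ f := by
    intro f
    have := RealRMK.integral_rieszMeasure P (CompactlySupportedContinuousMap.continuousMapEquiv f)
    exact this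
  have _ : IsFiniteMeasure ν := by
    constructor
    exact isCompact_univ.measure_lt_top
  have h2 : Tendsto (fun n => ∫ x, g n x ∂ν) atTop (𝓝 (∫ _, (0 : ℝ) ∂ν)) := by
    refine tendsto_integral_of_dominated_convergence (fun _ => (1 : ℝ)) ?_ ?_ ?_ ?_
    · exact fun n => (g n).continuous.aestronglyMeasurable
    · exact integrable_const _
    · exact fun n => Filter.Eventually.of_forall fun x => by
        rw [Real.norm_eq_abs, abs_of_nonneg (h0 n x)]; exact h1 n x
    · exact Filter.Eventually.of_forall hlim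
  simpa [hν] using h2

/-- Convex combinations of a bounded pointwise null sequence can be made small in norm. -/
lemma exists_small_convex (g : ℕ → C(K, ℝ)) (h0 : ∀ n x, 0 ≤ g n x) (h1 : ∀ n x, g n x ≤ 1)
    (hlim : ∀ x, Tendsto (fun n => g n x) atTop (𝓝 0)) {η : ℝ} (hη : 0 < η) :
    ∃ v ∈ convexHull ℝ (range g), ‖v‖ < η := by
  by_contra hcon
  push Not at hcon
  let A : Set C(K, ℝ) := Metric.ball 0 η
  let P : Set C(K, ℝ) := {p | ∀ x, 0 ≤ p x}
  have hP : Convex ℝ P := by
    intro p hp q hq a b ha hb _ x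
    have e1 := hp x
    have e2 := hq x
    simp only [ContinuousMap.coe_add, ContinuousMap.coe_smul, Pi.add_apply, Pi.smul_apply,
      smul_eq_mul]
    positivity
  have hhull : convexHull ℝ (range g) ⊆ P := convexHull_min (by rintro _ ⟨n, rfl⟩; exact h0 n) hP
  let B : Set C(K, ℝ) := convexHull ℝ (range g) + P
  have hdisj : Disjoint A B := by
    rw [Set.disjoint_left]
    rintro _ hA ⟨v, hv, p, hp, rfl⟩
    have h2 : ‖v‖ ≤ ‖v + p‖ := by
      rw [ContinuousMap.norm_le _ (norm_nonneg _)]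
      intro x
      have h3 : 0 ≤ v x := hhull hv x
      have h4 : 0 ≤ p x := hp x
      calc ‖v x‖ = v x := by rw [Real.norm_eq_abs, abs_of_nonneg h3]
        _ ≤ (v + p) x := by simp [h4]
        _ ≤ ‖(v + p) x‖ := le_abs_self _
        _ ≤ ‖v + p‖ := ContinuousMap.norm_coe_le_norm _ x
    have h5 : ‖v + p‖ < η := by simpa [A] using hA
    exact absurd (hcon v hv) (not_le.2 (lt_of_le_of_lt h2 h5))
  obtain ⟨Λ, c, hc1, hc2⟩ := geometric_hahn_banach_open (convex_ball _ _) Metric.isOpen_ball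
    ((convex_convexHull ℝ _).add hP) hdisj
  have hc0 : 0 < c := by
    have := hc1 0 (Metric.mem_ball_self hη)
    simpa using this
  have hmem : ∀ n, g n ∈ convexHull ℝ (range g) := fun n => subset_convexHull _ _ (mem_range_self n)
  have hpos : ∀ f : C(K, ℝ), (∀ x, 0 ≤ f x) → 0 ≤ Λ f := by
    intro f hf
    by_contra hneg
    push Not at hneg
    have hall : ∀ t : ℝ, 0 ≤ t → c ≤ Λ (g 0) + t * Λ f := by
      intro t ht
      have h2 : g 0 + t • f ∈ B := ⟨g 0, hmem 0, t • f, fun x => by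
        simp only [ContinuousMap.coe_smul, Pi.smul_apply, smul_eq_mul]
        exact mul_nonneg ht (hf x), rfl⟩
      have := hc2 _ h2
      simpa using this
    have h3 := hall 0 le_rfl
    have h4 := hall (Λ (g 0) / (-Λ f)) (by
      apply div_nonneg
      · linarith
      · linarith)
    have h5 : Λ (g 0) / (-Λ f) * Λ f = -Λ (g 0) := by
      have : Λ f ≠ 0 := hneg.ne
      rw [div_neg, neg_mul, div_mul_cancel₀ _ this]
    rw [h5] at h4
    linarith
  have hlow : ∀ n, c ≤ Λ (g n) := by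
    intro n
    have h2 : g n + 0 ∈ B := ⟨g n, hmem n, 0, fun x => by simp, rfl⟩
    have := hc2 _ h2
    simpa using this
  have htend := positive_tendsto Λ hpos g h0 h1 hlim
  have := ge_of_tendsto' htend hlow
  linarith

/-- Functionals applied to a `[0,1]`-valued `c₀`-family tend to zero. -/
lemma functional_tendsto {I : Type*} (ψ : I → C(K, ℝ)) (h0 : ∀ i x, 0 ≤ ψ i x)
    (h1 : ∀ i x, ψ i x ≤ 1) (hc : ∀ x, ∀ ε > 0, {i | ε < ψ i x}.Finite)
    (μ : StrongDual ℝ C(K, ℝ)) : Tendsto (fun i => μ (ψ i)) cofinite (𝓝 0) := by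
  have main : ∀ μ : StrongDual ℝ C(K, ℝ), ∀ ε > 0, {i | ε ≤ μ (ψ i)}.Finite := by
    intro μ ε hε
    by_contra hinf
    have hinf' : Set.Infinite {i | ε ≤ μ (ψ i)} := hinf
    let em := hinf'.natEmbedding
    let g : ℕ → C(K, ℝ) := fun n => ψ (em n)
    have hlim : ∀ x, Tendsto (fun n => g n x) atTop (𝓝 0) := by
      intro x
      rw [Metric.tendsto_atTop]
      intro δ hδ
      have hfin : {n : ℕ | δ / 2 < g n x}.Finite :=
        Set.Finite.preimage (f := fun n : ℕ => ((em n : {i | ε ≤ μ (ψ i)}) : I))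
          (Function.Injective.injOn (Subtype.val_injective.comp em.injective))
          (hc x (δ / 2) (by linarith))
      obtain ⟨N, hN⟩ := hfin.bddAbove
      refine ⟨N + 1, fun n hn => ?_⟩
      rw [Real.dist_eq, sub_zero, abs_of_nonneg (h0 _ x)]
      by_contra hcon
      push Not at hcon
      have : n ∈ {n : ℕ | δ / 2 < g n x} := by
        change δ / 2 < g n x
        linarith
      have := hN this
      omega
    obtain ⟨v, hv, hvn⟩ := exists_small_convex g (fun n => h0 _) (fun n => h1 _) hlim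
      (show 0 < ε / (‖μ‖ + 1) by positivity)
    have h2 : ε ≤ μ v := by
      have hconv : Convex ℝ {f : C(K, ℝ) | ε ≤ μ f} := convex_halfSpace_ge μ.isLinear ε
      exact (convexHull_min (by rintro _ ⟨n, rfl⟩; exact (em n).2) hconv) hv
    have h3 : μ v ≤ ‖μ‖ * ‖v‖ := (le_abs_self _).trans (μ.le_opNorm v)
    have h4 : ‖μ‖ * ‖v‖ ≤ ‖μ‖ * (ε / (‖μ‖ + 1)) :=
      mul_le_mul_of_nonneg_left hvn.le (norm_nonneg μ)
    have h5 : ‖μ‖ * (ε / (‖μ‖ + 1)) < ε := by
      rw [mul_div_assoc', div_lt_iff₀ (by positivity)]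
      nlinarith [norm_nonneg μ]
    linarith
  rw [Metric.tendsto_nhds]
  intro ε hε
  have h2 : {i | ¬ dist (μ (ψ i)) 0 < ε} ⊆ {i | ε ≤ μ (ψ i)} ∪ {i | ε ≤ (-μ) (ψ i)} := by
    intro i hi
    simp only [dist_zero_right, Real.norm_eq_abs, not_lt, mem_ofPred_eq] at hi
    rcases le_abs.1 hi with h | h
    · exact Or.inl h
    · exact Or.inr (by simpa using h)
  exact ((main μ ε hε).union (main (-μ) ε hε)).subset h2

theorem wcg_of_family {Γ : Type u} (φ : Γ → C(K, ℝ)) (h0 : ∀ γ k, 0 ≤ φ γ k)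
    (h1 : ∀ γ k, φ γ k ≤ 1) (hsep : ∀ k k', (∀ γ, φ γ k = φ γ k') → k = k')
    (hc : ∀ k, ∀ ε > 0, {γ | ε < φ γ k}.Finite) : IsWCG C(K, ℝ) := by
  classical
  let ψ : List Γ → C(K, ℝ) := fun L => ((1 / 2 : ℝ) ^ L.length) • (L.map φ).prod
  have hψv : ∀ L k, ψ L k = (1 / 2 : ℝ) ^ L.length * (L.map (fun γ => φ γ k)).prod := by
    intro L k
    simp only [ψ, ContinuousMap.coe_smul, Pi.smul_apply, smul_eq_mul]
    congr 1
    induction L with
    | nil => simp
    | cons γ L ih => simp only [List.map_cons, List.prod_cons, ContinuousMap.mul_apply, ih]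
  have hprod : ∀ (L : List Γ) k, 0 ≤ (L.map (fun γ => φ γ k)).prod ∧
      (L.map (fun γ => φ γ k)).prod ≤ 1 ∧ ∀ γ ∈ L, (L.map (fun γ => φ γ k)).prod ≤ φ γ k := by
    intro L k
    induction L with
    | nil => simp
    | cons γ L ih =>
      obtain ⟨i1, i2, i3⟩ := ih
      have a0 := h0 γ k
      have a1 := h1 γ k
      simp only [List.map_cons, List.prod_cons]
      refine ⟨mul_nonneg a0 i1, mul_le_one₀ a1 i1 i2, ?_⟩
      intro γ' hγ'
      rcases List.mem_cons.1 hγ' with rfl | h
      · exact mul_le_of_le_one_right a0 i2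
      · exact (mul_le_of_le_one_left i1 a1).trans (i3 _ h)
  have hp0 : ∀ n : ℕ, 0 < (1 / 2 : ℝ) ^ n := fun n => by positivity
  have hp1 : ∀ n : ℕ, (1 / 2 : ℝ) ^ n ≤ 1 := fun n => pow_le_one₀ (by norm_num) (by norm_num)
  have hψ0 : ∀ L k, 0 ≤ ψ L k := fun L k => by
    rw [hψv]; exact mul_nonneg (hp0 _).le (hprod L k).1
  have hψ1 : ∀ L k, ψ L k ≤ 1 := fun L k => by
    rw [hψv]; exact mul_le_one₀ (hp1 _) (hprod L k).1 (hprod L k).2.1
  have hψc : ∀ k, ∀ ε > 0, {L | ε < ψ L k}.Finite := by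
    intro k ε hε
    obtain ⟨M, hM⟩ := exists_pow_lt_of_lt_one hε (show (1 / 2 : ℝ) < 1 by norm_num)
    have hF := hc k ε hε
    have _ : Finite {γ | ε < φ γ k} := hF
    have hfin : {L : List {γ | ε < φ γ k} | L.length ≤ M}.Finite := List.finite_length_le _ M
    refine (hfin.image (List.map Subtype.val)).subset ?_
    intro L hL
    have hL' : ε < ψ L k := hL
    rw [hψv] at hL'
    have hlen : L.length ≤ M := by
      by_contra hcon
      push Not at hcon
      have e1 : (1 / 2 : ℝ) ^ L.length ≤ (1 / 2 : ℝ) ^ M :=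
        pow_le_pow_of_le_one (by norm_num) (by norm_num) hcon.le
      have e2 : (1 / 2 : ℝ) ^ L.length * (L.map (fun γ => φ γ k)).prod ≤ (1 / 2 : ℝ) ^ L.length :=
        mul_le_of_le_one_right (hp0 _).le (hprod L k).2.1
      linarith
    have hall : ∀ γ ∈ L, ε < φ γ k := by
      intro γ hγ
      have e1 : (1 / 2 : ℝ) ^ L.length * (L.map (fun γ => φ γ k)).prod ≤
          (L.map (fun γ => φ γ k)).prod := mul_le_of_le_one_left (hprod L k).1 (hp1 _)
      have e2 := (hprod L k).2.2 γ hγ
      linarith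
    refine ⟨L.attach.map (fun γ => ⟨γ.1, hall γ.1 γ.2⟩), ?_, ?_⟩
    · change (List.map _ L.attach).length ≤ M
      simpa using hlen
    · rw [List.map_map]
      conv_rhs => rw [← List.attach_map_subtype_val L]
      rfl
  refine ⟨insert 0 (range ψ), ?_, ?_⟩
  · rw [image_insert_eq, ← range_comp, map_zero]
    apply Tendsto.isCompact_insert_range_of_cofinite
    have hinj : Function.Injective (topDualPairing ℝ C(K, ℝ)).flip := by
      intro f g hfg
      by_contra hne
      obtain ⟨x, hx⟩ : ∃ x, f x ≠ g x := by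
        by_contra hcon
        push Not at hcon
        exact hne (ContinuousMap.ext hcon)
      have := LinearMap.congr_fun hfg (ContinuousMap.evalCLM ℝ x)
      exact hx this
    refine (WeakBilin.tendsto_iff_forall_eval_tendsto (topDualPairing ℝ C(K, ℝ)).flip hinj).2 ?_
    intro μ
    have h2 := functional_tendsto ψ hψ0 hψ1 hψc μ
    rw [← map_zero μ] at h2
    exact h2
  · have hadj : (Algebra.adjoin ℝ (range φ)).topologicalClosure = ⊤ := by
      apply ContinuousMap.subalgebra_topologicalClosure_eq_top_of_separatesPoints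
      intro k k' hkk'
      obtain ⟨γ, hγ⟩ : ∃ γ, φ γ k ≠ φ γ k' := by
        by_contra hcon
        push Not at hcon
        exact hkk' (hsep k k' hcon)
      exact ⟨φ γ, ⟨φ γ, Algebra.subset_adjoin (mem_range_self γ), rfl⟩, hγ⟩
    have hle : (Algebra.adjoin ℝ (range φ) : Set C(K, ℝ)) ⊆
        (Submodule.span ℝ (insert 0 (range ψ)) : Set C(K, ℝ)) := by
      intro f hf
      have hf' : f ∈ Subalgebra.toSubmodule (Algebra.adjoin ℝ (range φ)) := hf
      rw [Algebra.adjoin_eq_span] at hf'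
      refine (Submodule.span_le.2 ?_) hf'
      intro m hm
      obtain ⟨l, hl, rfl⟩ := Submonoid.exists_list_of_mem_closure hm
      obtain ⟨L, rfl⟩ : ∃ L : List Γ, L.map φ = l := by
        clear hm
        induction l with
        | nil => exact ⟨[], rfl⟩
        | cons a l ih =>
          obtain ⟨L, hL⟩ := ih fun y hy => hl y (List.mem_cons_of_mem _ hy)
          obtain ⟨γ, hγ⟩ := hl a List.mem_cons_self
          exact ⟨γ :: L, by rw [List.map_cons, hL, hγ]⟩
      have : (L.map φ).prod = ((2 : ℝ) ^ L.length) • ψ L := by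
        simp only [ψ, smul_smul]
        rw [← mul_pow]
        norm_num
      rw [this]
      exact Submodule.smul_mem _ _ (Submodule.subset_span (mem_insert_of_mem _ (mem_range_self L)))
    have hdense : Dense (Algebra.adjoin ℝ (range φ) : Set C(K, ℝ)) := by
      rw [dense_iff_closure_eq, ← Subalgebra.topologicalClosure_coe, hadj]
      rfl
    exact hdense.mono hle

end

end Pool.Agent.SemiEb
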