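import Mathlib
import Pool.Agent.Lib.SemiEb.Corson
import Pool.Agent.Lib.SemiEb.Wcg

/-!
The main argument.
-/

open Set Filter Topology Cardinal
open scoped Pointwise

universe u v

namespace Pool.Agent.SemiEb

section Cardinals

/-- The number of functions supported in `S`, with countable support. -/
lemma mk_countable_support_le {K Δ : Type u} {h : K → Δ → ℝ} (hinj : Function.Injective h)
    (S : Set Δ) {c : Cardinal.{u}} (hc : ℵ₀ ≤ c) (hS : #S ≤ c) :
    #{y : K | {δ | h y δ ≠ 0}.Countable ∧ ∀ δ, δ ∉ S → h y δ = 0} ≤ c ^ ℵ₀ := by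
  let Y := {y : K | {δ | h y δ ≠ 0}.Countable ∧ ∀ δ, δ ∉ S → h y δ = 0}
  let gr : Y → {t : Set (S × ℝ) // #t ≤ ℵ₀} := fun y =>
    ⟨{q | h y.1 q.1 = q.2 ∧ q.2 ≠ 0}, by
      rw [le_aleph0_iff_set_countable]
      have h1 : {δ : S | h y.1 δ ≠ 0}.Countable := y.2.1.preimage Subtype.val_injective
      refine (h1.image (fun δ : S => (δ, h y.1 δ))).mono ?_
      rintro ⟨δ, r⟩ ⟨hq1, hq2⟩
      exact ⟨δ, by simp only [mem_ofPred_eq]; rw [hq1]; exact hq2, by simp [hq1]⟩⟩
  have hgr : Function.Injective gr := by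
    intro y y' hyy
    apply Subtype.ext
    apply hinj
    funext δ
    have hset : ∀ q : S × ℝ, (h y.1 q.1 = q.2 ∧ q.2 ≠ 0) ↔ (h y'.1 q.1 = q.2 ∧ q.2 ≠ 0) := by
      intro q
      have := congrArg Subtype.val hyy
      exact Set.ext_iff.1 this q
    by_cases hδ : δ ∈ S
    · by_cases h0 : h y.1 δ = 0
      · by_contra hne
        rw [h0] at hne
        have := (hset (⟨δ, hδ⟩, h y'.1 δ)).2 ⟨rfl, fun hh => hne hh.symm⟩
        exact this.2 (this.1.symm.trans h0)
      · exact ((hset (⟨δ, hδ⟩, h y.1 δ)).1 ⟨rfl, h0⟩).1.symm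
    · rw [y.2.2 δ hδ, y'.2.2 δ hδ]
  have h1 : #Y ≤ max #(S × ℝ) ℵ₀ ^ (ℵ₀ : Cardinal.{u}) :=
    (mk_le_of_injective hgr).trans (mk_bounded_set_le _ _)
  have hcc : 𝔠 ≤ c ^ (ℵ₀ : Cardinal.{u}) := by
    rw [← two_power_aleph0]
    exact power_le_power_right (natCast_lt_aleph0.le.trans hc)
  have hcpow : c ≤ c ^ (ℵ₀ : Cardinal.{u}) := self_le_power c (one_le_aleph0)
  have h2 : max #(S × ℝ) ℵ₀ ≤ c ^ (ℵ₀ : Cardinal.{u}) := by
    refine max_le ?_ (hc.trans hcpow)
    rw [mk_prod, lift_uzero, mk_real, lift_continuum]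
    refine (mul_le_mul' (hS.trans hcpow) hcc).trans ?_
    rw [mul_eq_self (hc.trans hcpow)]
  refine h1.trans ((power_le_power_right h2).trans ?_)
  rw [← power_mul, aleph0_mul_aleph0]

end Cardinals

variable {X : Type u} [NormedAddCommGroup X] [NormedSpace ℝ X]

/-- The rational combinations of a set form a dense subset of its closed span. -/
lemma exists_dense_small (E : Set X) (hE : Dense (Submodule.span ℝ E : Set X)) :
    ∃ D : Set X, Dense D ∧ #D ≤ max #E ℵ₀ := by
  let Φ : (E →₀ ℚ) →+ X := Finsupp.liftAddHom fun x : E =>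
    { toFun := fun q : ℚ => (q : ℝ) • (x : X)
      map_zero' := by simp
      map_add' := fun a b => by push_cast; rw [add_smul] }
  refine ⟨Φ.range, ?_, ?_⟩
  · have hcl : ∀ r : ℝ, ∀ x ∈ E, r • x ∈ Φ.range.topologicalClosure := by
      intro r x hx
      have hr : r ∈ closure (range ((↑) : ℚ → ℝ)) := by
        rw [Rat.denseRange_cast.closure_range]; trivial
      have hcont : Continuous fun t : ℝ => t • x := by fun_prop
      have := map_mem_closure (t := (Φ.range : Set X)) hcont hr (by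
        rintro _ ⟨q, rfl⟩
        refine ⟨Finsupp.single ⟨x, hx⟩ q, ?_⟩
        simp [Φ])
      exact this
    have hspan : (Submodule.span ℝ E : Set X) ⊆ closure (Φ.range : Set X) := by
      intro y hy
      have h1 : y ∈ (Submodule.span ℝ E).toAddSubmonoid := hy
      rw [Submodule.span_eq_closure] at h1
      have h2 : AddSubmonoid.closure ((Set.univ : Set ℝ) • E) ≤ Φ.range.topologicalClosure.toAddSubmonoid := by
        rw [AddSubmonoid.closure_le]
        rintro _ ⟨r, -, x, hx, rfl⟩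
        exact hcl r x hx
      exact h2 h1
    exact dense_closure.1 (hE.mono hspan)
  · have h1 : #(Φ.range : Set X) ≤ #(E →₀ ℚ) := by
      rw [AddMonoidHom.coe_range]
      exact mk_range_le
    have h2 : #(E →₀ ℚ) ≤ #(Finset (E × ℚ)) :=
      mk_le_of_injective (Finsupp.graph_injective E ℚ)
    refine h1.trans (h2.trans ((mk_finset_le_max _).trans ?_))
    refine max_le ?_ (le_max_right _ _)
    rw [mk_prod, lift_uzero]
    refine (Cardinal.mul_le_max _ _).trans ?_
    refine max_le (max_le (le_max_left _ _) ?_) (le_max_right _ _)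
    refine le_max_of_le_right ?_
    rw [lift_le_aleph0]
    exact mk_le_aleph0

/-- A nonzero functional vanishing on a set which is not linearly dense. -/
lemma exists_vanishing (E : Set X) (hE : ¬ Dense (Submodule.span ℝ E : Set X)) :
    ∃ (f : UB X) (e : X), ev e f = 1 ∧ ∀ x ∈ E, ev x f = 0 := by
  obtain ⟨x, hx⟩ : ∃ x, x ∉ closure (Submodule.span ℝ E : Set X) := by
    by_contra hcon
    push Not at hcon
    exact hE hcon
  have hconv : Convex ℝ (closure (Submodule.span ℝ E : Set X)) :=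
    (Submodule.convex (Submodule.span ℝ E)).closure
  obtain ⟨g, u, hg1, hg2⟩ := geometric_hahn_banach_closed_point hconv isClosed_closure hx
  have hu : 0 < u := by
    have := hg1 0 (subset_closure (Submodule.zero_mem _))
    simpa using this
  have hgx : 0 < g x := hu.trans hg2
  have hgE : ∀ y ∈ E, g y = 0 := by
    intro y hy
    by_contra hne
    have hmem : (u / g y) • y ∈ closure (Submodule.span ℝ E : Set X) :=
      subset_closure (Submodule.smul_mem _ _ (Submodule.subset_span hy))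
    have := hg1 _ hmem
    rw [map_smul, smul_eq_mul, div_mul_cancel₀ _ hne] at this
    exact lt_irrefl _ this
  have hgn : 0 < ‖g‖ := by
    rw [norm_pos_iff]
    rintro rfl
    simp at hgx
  let f : WeakDual ℝ X := StrongDual.toWeakDual (‖g‖⁻¹ • g)
  have hfv : ∀ y, f y = ‖g‖⁻¹ * g y := fun y => rfl
  have hf : f ∈ dualBall (normSeminorm ℝ X) := by
    intro y
    rw [hfv, abs_mul, abs_of_pos (inv_pos.2 hgn), coe_normSeminorm]
    have h1 : |g y| ≤ ‖g‖ * ‖y‖ := g.le_opNorm y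
    calc ‖g‖⁻¹ * |g y| ≤ ‖g‖⁻¹ * (‖g‖ * ‖y‖) :=
          mul_le_mul_of_nonneg_left h1 (inv_pos.2 hgn).le
      _ = ‖y‖ := by field_simp
  have hfx : f x ≠ 0 := by
    rw [hfv]; positivity
  refine ⟨⟨f, hf⟩, (f x)⁻¹ • x, ?_, ?_⟩
  · change f ((f x)⁻¹ • x) = 1
    rw [map_smul, smul_eq_mul]
    exact inv_mul_cancel₀ hfx
  · intro y hy
    change f y = 0
    rw [hfv, hgE y hy, mul_zero]

/-- The zero functional as a point of the unit dual ball. -/
noncomputable def zeroUB : UB X := ⟨0, fun x => by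
  change |(0 : ℝ)| ≤ _
  simp⟩

lemma ev_zeroUB (x : X) : ev x (zeroUB : UB X) = 0 := rfl

/-- In the Corson case: each small set of points of the ball is `sigma-c₀`. -/
theorem sigma_of_card (hX : ∀ N : Seminorm ℝ X, IsEquivalentNorm N → IsSemiEberlein (dualBall N))
    {Δ : Type u} {h : UB X → Δ → ℝ} (hemb : IsEmbedding h)
    (hcount : ∀ p : UB X, {δ | h p δ ≠ 0}.Countable)
    (κ : Cardinal.{u}) (hκ : ∀ D : Set X, Dense D → κ ≤ #D) (hκ0 : ℵ₀ < κ)
    (θ : Cardinal.{u}) (hθ : ℵ₀ < θ.ord.cof) (hθκ : θ ≤ κ) (G : Set (UB X)) (hG : #G ≤ θ) :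
    ∃ (Δ : Type u) (H : Δ → UB X → ℝ), (∀ δ, Continuous (H δ)) ∧
      (∀ y y', (∀ δ, H δ y = H δ y') → y = y') ∧ SigmaC0 G H := by
  classical
  have hhc : ∀ δ, Continuous fun y => h y δ := fun δ =>
    (continuous_apply δ).comp hemb.continuous
  have hhs : ∀ y y' : UB X, (∀ δ, h y δ = h y' δ) → y = y' := fun y y' hy =>
    hemb.injective (funext hy)
  -- dependence sets of coordinates
  have hE : ∀ δ, ∃ E : Set X, E.Countable ∧ ∀ y y' : UB X, (∀ x ∈ E, ev x y = ev x y') →
      h y δ = h y' δ := fun δ => dep ev continuous_ev ev_sep (fun y => h y δ) (hhc δ)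
  choose E hEc hE using hE
  let sp : UB X → Set Δ := fun y => {δ | h y δ ≠ h zeroUB δ}
  have hspc : ∀ y, (sp y).Countable := by
    intro y
    refine ((hcount y).union (hcount zeroUB)).mono ?_
    intro δ hδ
    by_contra hcon
    simp only [mem_union, not_or, mem_ofPred_eq, not_not] at hcon
    exact hδ (by rw [hcon.1, hcon.2])
  let ι := κ.ord.ToType
  have hιcard : #ι = κ := mk_ord_toType κ
  obtain ⟨F, hF⟩ := wf_choice (α := UB X × X)
    (IsWellFounded.wf (r := ((· < ·) : ι → ι → Prop)))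
    (fun i prev s => ev s.2 s.1 = 1 ∧ ∀ j (hj : j < i), ev (prev j hj).2 s.1 = 0 ∧
      ∀ δ ∈ sp (prev j hj).1, δ ∉ sp s.1)
    (by
      intro i prev
      let V : Iio i → Set X := fun j => insert (prev j j.2).2 (⋃ δ ∈ sp (prev j j.2).1, E δ)
      have hV : ∀ j, (V j).Countable := fun j => ((hspc _).biUnion fun δ _ => hEc δ).insert _
      have hVc : #(⋃ j, V j) < κ := by
        refine (mk_iUnion_countable_le V hV).trans_lt (max_lt ?_ hκ0)
        exact Cardinal.mk_Iio_toType_ord_lt i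
      have hnd : ¬ Dense (Submodule.span ℝ (⋃ j, V j) : Set X) := by
        intro hd
        obtain ⟨D, hD1, hD2⟩ := exists_dense_small _ hd
        exact absurd ((hκ D hD1).trans hD2) (not_le.2 (max_lt hVc hκ0))
      obtain ⟨f, e, hfe, hf⟩ := exists_vanishing _ hnd
      refine ⟨(f, e), hfe, fun j hj => ⟨?_, ?_⟩⟩
      · exact hf _ (mem_iUnion.2 ⟨⟨j, hj⟩, mem_insert _ _⟩)
      · intro δ hδ hδf
        apply hδf
        refine hE δ _ _ fun x hx => ?_
        rw [ev_zeroUB]
        exact hf x (mem_iUnion.2 ⟨⟨j, hj⟩, mem_insert_of_mem _ (mem_iUnion₂.2 ⟨δ, hδ, hx⟩)⟩))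
  let f : ι → WeakDual ℝ X := fun i => ((F i).1 : WeakDual ℝ X)
  let e : ι → X := fun i => (F i).2
  have hfb : ∀ i x, |f i x| ≤ 2 * ‖x‖ := by
    intro i x
    have h1 : |f i x| ≤ ‖x‖ := abs_ev_le x (F i).1
    have := norm_nonneg x
    linarith
  have hfe : ∀ i, f i (e i) = 1 := fun i => (hF i).1
  have hfe' : ∀ i j, i < j → f j (e i) = 0 := fun i j hij => ((hF j).2 i hij).1
  have hnull : ∀ x, ∀ ρ > 0, {j | ρ < |f j x|}.Finite := by
    intro x ρ hρ
    obtain ⟨I, η, hη, hI⟩ := uc (fun δ y => h y δ) hhc hhs (ev x) (continuous_ev x) hρ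
    have hsub : {j | ρ < |f j x|} ⊆ ⋃ δ ∈ I, {j | δ ∈ sp (F j).1} := by
      intro j hj
      have : ¬ ∀ δ ∈ I, |h (F j).1 δ - h zeroUB δ| < η := by
        intro hall
        have h1 := hI _ _ hall
        rw [ev_zeroUB, sub_zero] at h1
        have hj' : ρ < |ev x (F j).1| := hj
        linarith
      push Not at this
      obtain ⟨δ, hδI, hδ⟩ := this
      refine mem_iUnion₂.2 ⟨δ, hδI, ?_⟩
      intro heq
      rw [heq, sub_self, abs_zero] at hδ
      linarith
    refine (I.finite_toSet.biUnion fun δ _ => ?_).subset hsub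
    refine Set.Subsingleton.finite ?_
    intro i hi j hj
    rcases lt_trichotomy i j with hlt | heq | hlt
    · exact absurd hj (((hF j).2 i hlt).2 δ hi)
    · exact heq
    · exact absurd hi (((hF i).2 j hlt).2 δ hj)
  exact key2 hX f e hfb hfe hfe' hnull θ hθ (hθκ.trans hιcard.ge) G hG

/-- There is an embedding whose set of coordinates is small. -/
lemma exists_small_coords {Δ : Type u} {h : UB X → Δ → ℝ} (hemb : IsEmbedding h)
    {D : Set X} (hD : Dense D) :
    ∃ Δ₀ : Set Δ, #Δ₀ ≤ max #D ℵ₀ ∧ IsEmbedding (fun (y : UB X) (δ : Δ₀) => h y δ) := by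
  have hhc : ∀ δ, Continuous fun y => h y δ := fun δ =>
    (continuous_apply δ).comp hemb.continuous
  have hhs : ∀ y y' : UB X, (∀ δ, h y δ = h y' δ) → y = y' := fun y y' hy =>
    hemb.injective (funext hy)
  have hE : ∀ x : X, ∃ E : Set Δ, E.Countable ∧ ∀ y y' : UB X, (∀ δ ∈ E, h y δ = h y' δ) →
      ev x y = ev x y' := fun x => dep (fun δ y => h y δ) hhc hhs (ev x) (continuous_ev x)
  choose E hEc hE using hE
  refine ⟨⋃ x : D, E x, mk_iUnion_countable_le _ fun x => hEc x, ?_⟩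
  have hcont : Continuous (fun (y : UB X) (δ : (⋃ x : D, E x : Set Δ)) => h y δ) :=
    continuous_pi fun δ => hhc δ
  refine (hcont.isClosedEmbedding ?_).isEmbedding
  intro y y' hyy
  apply ev_sep
  have h1 : ∀ x ∈ D, ev x y = ev x y' := by
    intro x hx
    refine hE x _ _ fun δ hδ => ?_
    exact congrFun hyy ⟨δ, mem_iUnion.2 ⟨⟨x, hx⟩, hδ⟩⟩
  have h2 : (fun x => (y : WeakDual ℝ X) x) = fun x => (y' : WeakDual ℝ X) x := by
    refine Continuous.ext_on hD (y : WeakDual ℝ X).continuous (y' : WeakDual ℝ X).continuous ?_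
    intro x hx
    exact h1 x hx
  exact fun x => congrFun h2 x

/-- Combining countably many `sigma-c₀` families through maps into the ball. -/
lemma combine {K K' : Type*} [TopologicalSpace K] [TopologicalSpace K']
    (r : ℕ → K → K') (hr : ∀ n, Continuous (r n))
    (hrs : ∀ y y', (∀ n, r n y = r n y') → y = y')
    (hfam : ∀ n, ∃ (Δ : Type u) (H : Δ → K' → ℝ), (∀ δ, Continuous (H δ)) ∧
      (∀ y y', (∀ δ, H δ y = H δ y') → y = y') ∧ SigmaC0 (range (r n)) H) :
    ∃ (Δ : Type u) (H : Δ → K → ℝ), (∀ δ, Continuous (H δ)) ∧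
      (∀ y y', (∀ δ, H δ y = H δ y') → y = y') ∧ SigmaC0 Set.univ H := by
  choose Δ H hHc hHs hHσ using hfam
  refine ⟨Σ n, Δ n, fun q y => H q.1 q.2 (r q.1 y), ?_, ?_, ?_⟩
  · exact fun q => (hHc q.1 q.2).comp (hr q.1)
  · intro y y' hyy
    refine hrs _ _ fun n => hHs n _ _ fun δ => hyy ⟨n, δ⟩
  · intro ε hε
    choose m hm using fun n => hHσ n ε hε
    refine ⟨fun q => Nat.pair q.1 (m q.1 q.2), fun g _ k => ?_⟩
    obtain ⟨a, b, rfl⟩ : ∃ a b, Nat.pair a b = k :=
      ⟨(Nat.unpair k).1, (Nat.unpair k).2, Nat.pair_unpair k⟩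
    refine ((hm a _ (mem_range_self g) b).image (Sigma.mk a)).subset ?_
    rintro ⟨n, δ⟩ ⟨h1, h2⟩
    obtain ⟨hna, hmb⟩ := Nat.pair_eq_pair.1 h1
    simp only at hna hmb h2
    subst hna
    exact ⟨δ, ⟨hmb, h2⟩, rfl⟩

/-- The main theorem on the dual ball. -/
theorem exists_sigma_univ
    (hX : ∀ N : Seminorm ℝ X, IsEquivalentNorm N → IsSemiEberlein (dualBall N))
    (κ : Cardinal.{u}) (hκ : ∀ D : Set X, Dense D → κ ≤ #D) (hκ' : ∃ D : Set X, Dense D ∧ #D = κ)
    (hcard : κ ≤ ℵ₀ ∨ ∀ c < κ, c ^ ℵ₀ ≤ κ) :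
    ∃ (Δ : Type u) (H : Δ → UB X → ℝ), (∀ δ, Continuous (H δ)) ∧
      (∀ y y', (∀ δ, H δ y = H δ y') → y = y') ∧ SigmaC0 Set.univ H := by
  classical
  obtain ⟨D, hD, hDκ⟩ := hκ'
  rcases le_or_gt κ ℵ₀ with hκ0 | hκ0
  · -- the separable case
    have hDc : D.Countable := by rw [← le_aleph0_iff_set_countable, hDκ]; exact hκ0
    have _ : Countable D := hDc.to_subtype
    obtain ⟨n, hn⟩ := exists_injective_nat D
    refine ⟨D, fun x y => ev (x : X) y, fun x => continuous_ev _, ?_, ?_⟩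
    · intro y y' hyy
      apply ev_sep
      have h2 : (fun x => (y : WeakDual ℝ X) x) = fun x => (y' : WeakDual ℝ X) x := by
        refine Continuous.ext_on hD (y : WeakDual ℝ X).continuous
          (y' : WeakDual ℝ X).continuous ?_
        intro x hx
        exact hyy ⟨x, hx⟩
      exact fun x => congrFun h2 x
    · intro ε hε
      refine ⟨n, fun g _ m => Set.Subsingleton.finite ?_⟩
      rintro a ⟨ha, -⟩ b ⟨hb, -⟩
      exact hn (ha.trans hb.symm)
  have hpow : ∀ c < κ, c ^ ℵ₀ ≤ κ := by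
    rcases hcard with h | h
    · exact absurd hκ0 (not_lt.2 h)
    · exact h
  -- the embedding
  obtain ⟨Δ₁, h₁, hemb₁, -, hdense₁⟩ := hX (normSeminorm ℝ X)
    ⟨1, 1, one_pos, one_pos, fun x => by simp⟩
  have hcor : ∀ p : UB X, {δ | h₁ p δ ≠ 0}.Countable := corson hX hemb₁ hdense₁
  obtain ⟨Δ₀, hΔ₀, hemb⟩ := exists_small_coords hemb₁ hD
  set h : UB X → Δ₀ → ℝ := fun y δ => h₁ y δ with hh
  have hcount : ∀ p : UB X, {δ | h p δ ≠ 0}.Countable := fun p =>
    (hcor p).preimage Subtype.val_injective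
  have hΔκ : #Δ₀ ≤ κ := hΔ₀.trans (max_le hDκ.le hκ0.le)
  let ι := κ.ord.ToType
  have hιcard : #ι = κ := mk_ord_toType κ
  obtain ⟨⟨ρ, hρ⟩⟩ := Cardinal.le_def _ _ |>.1 (hΔκ.trans hιcard.ge)
  -- small pieces
  have hIic : ∀ i : ι, #(Iic i) < κ := by
    intro i
    rw [← Iio_insert]
    refine mk_insert_le.trans_lt ?_
    have h1 : #(Iio i) < κ := Cardinal.mk_Iio_toType_ord_lt i
    exact add_lt_of_lt hκ0.le h1 (one_lt_aleph0.trans hκ0)
  have hpre : ∀ i : ι, #(ρ ⁻¹' (Iic i)) < κ := fun i =>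
    (mk_preimage_of_injective _ _ hρ).trans_lt (hIic i)
  rcases lt_or_ge ℵ₀ κ.ord.cof with hcof | hcof
  · -- uncountable cofinality
    have hbdd : ∀ s : Set ι, s.Countable → ∃ i, ∀ j ∈ s, j < i := by
      intro s hs
      rw [← not_isCofinal_iff]
      intro hcf
      have h1 := Order.cof_le hcf
      rw [Ordinal.cof_toType] at h1
      exact absurd (h1.trans ((le_aleph0_iff_set_countable).2 hs)) (not_le.2 hcof)
    have hUB : #(UB X) ≤ κ := by
      have hcov : (Set.univ : Set (UB X)) ⊆ ⋃ i : ι,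
          {y : UB X | {δ | h y δ ≠ 0}.Countable ∧ ∀ δ, δ ∉ ρ ⁻¹' (Iic i) → h y δ = 0} := by
        intro y _
        obtain ⟨i, hi⟩ := hbdd (ρ '' {δ | h y δ ≠ 0}) ((hcount y).image ρ)
        refine mem_iUnion.2 ⟨i, hcount y, fun δ hδ => ?_⟩
        by_contra hne
        exact hδ (hi _ (mem_image_of_mem ρ hne)).le
      rw [← mk_univ]
      refine (mk_le_mk_of_subset hcov).trans ((mk_iUnion_le _).trans ?_)
      rw [hιcard]
      refine (mul_le_mul' le_rfl (ciSup_le' fun i => ?_)).trans (mul_eq_self hκ0.le).le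
      refine (mk_countable_support_le hemb.injective (ρ ⁻¹' (Iic i))
        (le_max_right #(ρ ⁻¹' (Iic i)) ℵ₀) (le_max_left _ _)).trans ?_
      exact hpow _ (max_lt (hpre i) hκ0)
    exact sigma_of_card hX hemb hcount κ hκ hκ0 κ hcof le_rfl Set.univ (by rw [mk_univ]; exact hUB)
  · -- countable cofinality
    obtain ⟨s, hs, hsc⟩ := Order.exists_cof_eq ι
    rw [Ordinal.cof_toType] at hsc
    have hscount : s.Countable := by
      rw [← le_aleph0_iff_set_countable, hsc]; exact hcof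
    have hιne : Nonempty ι := by
      rw [← mk_ne_zero_iff, hιcard]; exact (aleph0_pos.trans hκ0).ne'
    obtain ⟨t, ht⟩ := hscount.exists_eq_range hs.nonempty
    have hA : Dense {y : UB X | {δ | h y δ ≠ 0}.Countable} := by
      have : {y : UB X | {δ | h y δ ≠ 0}.Countable} = Set.univ := eq_univ_of_forall hcount
      rw [this]; exact dense_univ
    have hgood : ∀ n : ℕ, ∃ S : Set Δ₀, ρ ⁻¹' (Iic (t n)) ⊆ S ∧ #S < κ ∧
        ∀ p, GoodAt h S p := by
      intro n
      obtain ⟨S, hS1, hS2, hS3⟩ := exists_good hemb hA (fun y hy => hy) (ρ ⁻¹' (Iic (t n)))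
      exact ⟨S, hS1, hS2.trans_lt (max_lt (hpre _) hκ0), hS3⟩
    choose S hS1 hS2 hS3 using hgood
    choose r hr using hS3
    have hr1 : ∀ n p δ, δ ∈ S n → h (r n p) δ = h p δ := fun n p δ hδ => by
      rw [hr n p δ, indicator_of_mem hδ]
    have hr0 : ∀ n p δ, δ ∉ S n → h (r n p) δ = 0 := fun n p δ hδ => by
      rw [hr n p δ, indicator_of_notMem hδ]
    refine combine (K := UB X) (K' := UB X) r ?_ ?_ ?_
    · intro n
      rw [hemb.continuous_iff]
      refine continuous_pi fun δ => ?_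
      by_cases hδ : δ ∈ S n
      · have : (fun p => (h ∘ r n) p δ) = fun p => h p δ := by
          funext p; exact hr1 n p δ hδ
        rw [this]
        exact (continuous_apply δ).comp hemb.continuous
      · have : (fun p => (h ∘ r n) p δ) = fun _ => 0 := by
          funext p; exact hr0 n p δ hδ
        rw [this]
        exact continuous_const
    · intro y y' hyy
      apply hemb.injective
      funext δ
      obtain ⟨i, hi, hδi⟩ := hs (ρ δ)
      rw [ht] at hi
      obtain ⟨n, rfl⟩ := hi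
      have hmem : δ ∈ S n := hS1 n hδi
      rw [← hr1 n y δ hmem, ← hr1 n y' δ hmem, hyy n]
    · intro n
      let c : Cardinal.{u} := max #(S n) ℵ₀
      have hc0 : ℵ₀ ≤ c := le_max_right _ _
      have hcκ : c < κ := max_lt (hS2 n) hκ0
      have hle : c ^ ℵ₀ ≤ κ := hpow c hcκ
      have hcof2 : ℵ₀ < (c ^ ℵ₀).ord.cof := lt_cof_ord_power le_rfl (one_lt_aleph0.trans_le hc0)
      have hlt : c ^ ℵ₀ < κ := by
        refine lt_of_le_of_ne hle ?_
        intro heq
        rw [heq] at hcof2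
        exact absurd hcof2 (not_lt.2 hcof)
      refine sigma_of_card hX hemb hcount κ hκ hκ0 (c ^ ℵ₀) hcof2 hle (range (r n)) ?_
      refine le_trans (mk_le_mk_of_subset ?_) (mk_countable_support_le hemb.injective (S n) hc0
        (le_max_left _ _))
      rintro _ ⟨p, rfl⟩
      exact ⟨hcount _, fun δ hδ => hr0 n p δ hδ⟩

end Pool.Agent.SemiEb
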