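import Mathlib
import Pool.Agent.Lib.SemiEb.Main

/-!
From a sigma-`c₀` family on the dual ball to an embedding into a weakly compactly generated
space, and the cardinal arithmetic of the final statement.
-/

open Set Filter Topology Cardinal

universe u

namespace Pool.Agent.SemiEb

variable {X : Type u} [NormedAddCommGroup X] [NormedSpace ℝ X]

instance t2UB : T2Space (UB X) := by
  have : T2Space (WeakDual ℝ X) := inferInstance
  infer_instance

/-- The truncation used to pass to `[0,1]`-valued functions. -/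
noncomputable def tau (t : ℝ) : ℝ := max t 0 / (1 + max t 0)

lemma tau_continuous : Continuous tau := by
  unfold tau
  refine Continuous.div (by fun_prop) (by fun_prop) fun t => ?_
  have := le_max_right t 0
  positivity

lemma tau_nonneg (t : ℝ) : 0 ≤ tau t := by
  unfold tau
  have := le_max_right t 0
  positivity

lemma tau_lt_one (t : ℝ) : tau t < 1 := by
  unfold tau
  have := le_max_right t 0
  rw [div_lt_one (by positivity)]
  linarith

lemma tau_pos {t : ℝ} (h : 0 < tau t) : 0 < t := by
  by_contra hcon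
  push Not at hcon
  unfold tau at h
  rw [max_eq_right hcon] at h
  simp at h

lemma tau_eq {s t : ℝ} (hs : 0 < s) (h : tau s = tau t) : s = t := by
  have h1 : 0 < tau s := by
    unfold tau
    rw [max_eq_left hs.le]
    positivity
  have ht : 0 < t := tau_pos (h ▸ h1)
  unfold tau at h
  rw [max_eq_left hs.le, max_eq_left ht.le, div_eq_div_iff (by positivity) (by positivity)] at h
  linarith

theorem wcg_of_sigma {K : Type u} [TopologicalSpace K] [CompactSpace K] [T2Space K]
    (hfam : ∃ (Δ : Type u) (H : Δ → K → ℝ), (∀ δ, Continuous (H δ)) ∧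
      (∀ y y', (∀ δ, H δ y = H δ y') → y = y') ∧ SigmaC0 Set.univ H) :
    IsWCG C(K, ℝ) := by
  obtain ⟨Δ, H, hc, hs, hσ⟩ := hfam
  choose n hn using fun m : ℕ => hσ (1 / ((m : ℝ) + 1)) (by positivity)
  let sg : Bool → ℝ := fun b => if b then 1 else -1
  let co : Δ × ℕ × Bool → ℝ := fun q => 1 / (((q.2.1 : ℝ) + 1) * ((n q.2.1 q.1 : ℝ) + 1))
  have hco : ∀ q, 0 < co q := fun q => by positivity
  have hco1 : ∀ q, co q ≤ 1 / ((q.2.1 : ℝ) + 1) := fun q => by
    apply one_div_le_one_div_of_le (by positivity)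
    have h1 : (0 : ℝ) ≤ n q.2.1 q.1 := by positivity
    have h2 : (0 : ℝ) ≤ q.2.1 := by positivity
    nlinarith
  have hco2 : ∀ q, co q ≤ 1 / ((n q.2.1 q.1 : ℝ) + 1) := fun q => by
    apply one_div_le_one_div_of_le (by positivity)
    have h1 : (0 : ℝ) ≤ n q.2.1 q.1 := by positivity
    have h2 : (0 : ℝ) ≤ q.2.1 := by positivity
    nlinarith
  have hcole : ∀ q, co q ≤ 1 := fun q => (hco1 q).trans (by
    rw [div_le_one (by positivity)]
    have h2 : (0 : ℝ) ≤ q.2.1 := by positivity
    linarith)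
  let φ : Δ × ℕ × Bool → C(K, ℝ) := fun q =>
    ⟨fun y => co q * tau (sg q.2.2 * H q.1 y - 1 / ((q.2.1 : ℝ) + 1)), by
      exact continuous_const.mul (tau_continuous.comp
        ((continuous_const.mul (hc q.1)).sub continuous_const))⟩
  have hφ : ∀ q y, φ q y = co q * tau (sg q.2.2 * H q.1 y - 1 / ((q.2.1 : ℝ) + 1)) :=
    fun q y => rfl
  refine wcg_of_family φ ?_ ?_ ?_ ?_
  · intro q y
    rw [hφ]
    exact mul_nonneg (hco q).le (tau_nonneg _)
  · intro q y
    rw [hφ]
    exact mul_le_one₀ (hcole q) (tau_nonneg _) (tau_lt_one _).le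
  · have aux : ∀ y y', (∀ q, φ q y = φ q y') → ∀ δ, ¬ (H δ y < H δ y') := by
      intro y y' hyy δ hlt
      rcases lt_or_ge 0 (H δ y') with hpos | hneg
      · obtain ⟨m, hm⟩ := exists_nat_one_div_lt hpos
        have h1 := hyy (δ, m, true)
        rw [hφ, hφ] at h1
        have h2 := mul_left_cancel₀ (hco _).ne' h1
        simp only [sg, if_true, one_mul] at h2
        have h3 := tau_eq (by linarith) h2.symm
        linarith
      · have hpos : 0 < - H δ y := by linarith
        obtain ⟨m, hm⟩ := exists_nat_one_div_lt hpos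
        have h1 := hyy (δ, m, false)
        rw [hφ, hφ] at h1
        have h2 := mul_left_cancel₀ (hco _).ne' h1
        simp only [sg, Bool.false_eq_true, if_false, neg_mul, one_mul] at h2
        have h3 := tau_eq (by linarith) h2
        linarith
    intro y y' hyy
    refine hs _ _ fun δ => ?_
    rcases lt_trichotomy (H δ y) (H δ y') with h | h | h
    · exact absurd h (aux y y' hyy δ)
    · exact h
    · exact absurd h (aux y' y (fun q => (hyy q).symm) δ)
  · intro y ε hε
    obtain ⟨M, hM⟩ := exists_nat_gt (1 / ε)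
    have hfin : (⋃ m ∈ Iio M, ⋃ j ∈ Iio M, ⋃ b : Bool,
        (fun δ => ((δ, m, b) : Δ × ℕ × Bool)) ''
          {δ | n m δ = j ∧ 1 / ((m : ℝ) + 1) < |H δ y|}).Finite := by
      refine (finite_Iio M).biUnion fun m _ => (finite_Iio M).biUnion fun j _ => ?_
      refine finite_iUnion fun b => ?_
      exact (hn m y (mem_univ _) j).image _
    refine hfin.subset ?_
    rintro ⟨δ, m, b⟩ hq
    have hq' : ε < co (δ, m, b) * tau (sg b * H δ y - 1 / ((m : ℝ) + 1)) := hq
    have ht0 := tau_nonneg (sg b * H δ y - 1 / ((m : ℝ) + 1))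
    have ht1 := tau_lt_one (sg b * H δ y - 1 / ((m : ℝ) + 1))
    have hc0 := hco (δ, m, b)
    have hlt : ε < co (δ, m, b) :=
      hq'.trans_le (mul_le_of_le_one_right hc0.le ht1.le)
    have hm : m < M := by
      have h1 : ε < 1 / ((m : ℝ) + 1) := hlt.trans_le (hco1 (δ, m, b))
      have h2 : (m : ℝ) + 1 < 1 / ε := by
        rw [lt_div_iff₀ hε]
        rw [lt_div_iff₀ (by positivity)] at h1
        linarith
      have h3 : (m : ℝ) < M := by linarith
      exact_mod_cast h3
    have hj : n m δ < M := by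
      have h1 : ε < 1 / ((n m δ : ℝ) + 1) := hlt.trans_le (hco2 (δ, m, b))
      have h2 : (n m δ : ℝ) + 1 < 1 / ε := by
        rw [lt_div_iff₀ hε]
        rw [lt_div_iff₀ (by positivity)] at h1
        linarith
      have h3 : (n m δ : ℝ) < M := by linarith
      exact_mod_cast h3
    have hpos : 0 < sg b * H δ y - 1 / ((m : ℝ) + 1) := by
      apply tau_pos
      by_contra hcon
      push Not at hcon
      have : tau (sg b * H δ y - 1 / ((m : ℝ) + 1)) = 0 := le_antisymm hcon ht0
      rw [this, mul_zero] at hq'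
      linarith
    refine mem_iUnion₂.2 ⟨m, hm, mem_iUnion₂.2 ⟨n m δ, hj, mem_iUnion.2 ⟨b, δ, ⟨rfl, ?_⟩, rfl⟩⟩⟩
    have h1 : sg b * H δ y ≤ |H δ y| := by
      cases b
      · simp only [sg, Bool.false_eq_true, if_false, neg_mul, one_mul]
        exact neg_le_abs _
      · simp only [sg, if_true, one_mul]
        exact le_abs_self _
    linarith

/-- The canonical embedding of `X` into the continuous functions on its dual ball. -/
noncomputable def evMap (X : Type u) [NormedAddCommGroup X] [NormedSpace ℝ X] :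
    X →L[ℝ] C(UB X, ℝ) :=
  LinearMap.mkContinuous
    { toFun := fun x => ⟨fun y => ev x y, continuous_ev x⟩
      map_add' := fun x x' => by
        ext y
        exact map_add (y : WeakDual ℝ X) x x'
      map_smul' := fun c x => by
        ext y
        exact map_smul (y : WeakDual ℝ X) c x } 1 (by
    intro x
    rw [one_mul]
    rw [ContinuousMap.norm_le _ (norm_nonneg x)]
    intro y
    exact abs_ev_le x y)

lemma norm_le_evMap (x : X) : ‖x‖ ≤ ‖evMap X x‖ := by
  obtain ⟨g, hg1, hg2⟩ := exists_dual_vector'' ℝ x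
  have hf : StrongDual.toWeakDual g ∈ dualBall (normSeminorm ℝ X) := by
    intro y
    have h1 : |g y| ≤ ‖g‖ * ‖y‖ := g.le_opNorm y
    have h2 : ‖g‖ * ‖y‖ ≤ ‖y‖ := mul_le_of_le_one_left (norm_nonneg y) hg1
    exact h1.trans h2
  have h2 := (evMap X x).norm_coe_le_norm ⟨_, hf⟩
  have h3 : (evMap X x) ⟨StrongDual.toWeakDual g, hf⟩ = g x := rfl
  rw [h3, hg2] at h2
  simpa using h2

/-- Cardinal arithmetic: under the generalized continuum hypothesis every infinite cardinal
satisfies the cardinal hypothesis. -/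
lemma gch_pow (hgch : ∀ μ : Cardinal.{u}, ℵ₀ ≤ μ → (2 : Cardinal.{u}) ^ μ = Order.succ μ)
    (κ : Cardinal.{u}) : κ ≤ ℵ₀ ∨ ∀ c < κ, c ^ ℵ₀ ≤ κ := by
  rcases le_or_gt κ ℵ₀ with h | h
  · exact Or.inl h
  · refine Or.inr fun c hc => ?_
    have h1 : max c ℵ₀ < κ := max_lt hc h
    have h2 : c ^ ℵ₀ ≤ (2 : Cardinal.{u}) ^ (max c ℵ₀) := by
      calc c ^ ℵ₀ ≤ (2 ^ max c ℵ₀) ^ (ℵ₀ : Cardinal.{u}) :=
            power_le_power_right ((le_max_left c ℵ₀).trans (cantor _).le)
        _ = 2 ^ (max c ℵ₀ * ℵ₀) := by rw [← power_mul]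
        _ = 2 ^ max c ℵ₀ := by
            rw [mul_eq_left (le_max_right _ _) (le_max_right _ _) aleph0_ne_zero]
    rw [hgch _ (le_max_right _ _)] at h2
    exact h2.trans (Order.succ_le_of_lt h1)

end Pool.Agent.SemiEb
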